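import Pool.Agent.R211.CW.Wk

/-!
The averages of a divergence free field are controlled by its curl.
-/

open MeasureTheory Set Metric Filter Topology
open scoped ContDiff RealInnerProductSpace
open Pool.Agent.R210 Pool.Agent.R211.CD Pool.Agent.R211.CE

namespace Pool.Agent.R211.CW

/-- The mass of the weight. -/
noncomputable def Zt : ℝ := ∫ z : E, ze 1 z

theorem ze_cont (s : ℝ) (x : E) : Continuous fun y : E => ze s (y - x) :=
  (ze_smooth s).continuous.comp (continuous_id.sub continuous_const)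

theorem ze_int {s : ℝ} (hs : 0 < s) (x : E) : Integrable fun y : E => ze s (y - x) := by
  have := Mz_int (f := fun _ => (1 : ℝ)) continuous_const hs x
  simpa using this

theorem Zt_pos : 0 < Zt := by
  have h0 : Integrable fun z : E => ze 1 z := by
    have := ze_int one_pos (0 : E)
    simpa using this
  refine (integral_pos_iff_support_of_nonneg (fun z => ze_nonneg _ _) h0).2 ?_
  have h1 : IsOpen (Function.support fun z : E => ze 1 z) :=
    (ze_smooth 1).continuous.isOpen_support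
  refine h1.measure_pos volume ⟨0, ?_⟩
  show ze 1 (0 : E) ≠ 0
  unfold ze
  simp only [norm_zero]
  exact (hh_pos (by norm_num)).ne'

theorem mass {s : ℝ} (hs : 0 < s) (x : E) : ∫ y, ze s (y - x) = s ^ 3 * Zt := by
  rw [integral_sub_right_eq_self (fun y : E => ze s y) x]
  have h1 : ∀ z : E, ze s z = ze 1 (s⁻¹ • z) := by
    intro z
    unfold ze
    rw [norm_smul, norm_inv, Real.norm_eq_abs, abs_of_pos hs]
    congr 1
    field_simp
  simp_rw [h1]
  rw [Measure.integral_comp_smul volume (fun z : E => ze 1 z) s⁻¹]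
  have h2 : Module.finrank ℝ E = 3 := by simp [E]
  rw [h2, smul_eq_mul, abs_of_pos (by positivity), inv_pow, inv_inv]
  rfl

/-- The averages. -/
noncomputable def Nf (g : E → ℝ) (x : E) (s : ℝ) : ℝ := (s ^ 3)⁻¹ * Mz g s x

/-- The vector weights. -/
noncomputable def Wi (s : ℝ) (x : E) (i : Fin 3) (y : E) : ℝ := ze s (y - x) * (y - x) i

theorem Wi_smooth (s : ℝ) (x : E) (i : Fin 3) : ContDiff ℝ ∞ (Wi s x i) :=
  ((ze_smooth s).comp (contDiff_id.sub contDiff_const)).mul (proj_smooth x i)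

theorem Wi_zero {s : ℝ} (hs : 0 < s) (x : E) (i : Fin 3) {y : E} (h : y ∉ ball x s) :
    Wi s x i y = 0 := by
  unfold Wi
  rw [ze_sub_zero hs h, zero_mul]

theorem Wi_compact {s : ℝ} (hs : 0 < s) (x : E) (i : Fin 3) : HasCompactSupport (Wi s x i) := by
  refine HasCompactSupport.of_support_subset_isCompact (isCompact_closedBall x s) ?_
  intro y hy
  by_contra hc
  exact hy (Wi_zero hs x i fun h => hc (ball_subset_closedBall h))

theorem Wi_fderiv (s : ℝ) (x : E) (i j : Fin 3) (y : E) : fderiv ℝ (Wi s x i) y (ei j)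
    = Hh s x y * (y - x) j * (y - x) i + ze s (y - x) * ei j i := by
  have h1 := (ze_fderiv s x y).mul (proj_fderiv x i y)
  have h2 : HasFDerivAt (Wi s x i) _ y := h1
  rw [h2.fderiv]
  simp only [ContinuousLinearMap.add_apply, ContinuousLinearMap.smul_apply, smul_eq_mul,
    innerSL_apply_apply, inner_ei, proj_ap]
  unfold Hh
  ring

theorem Wi_symm (s : ℝ) (x : E) (i j : Fin 3) (y : E) :
    fderiv ℝ (Wi s x i) y (ei j) = fderiv ℝ (Wi s x j) y (ei i) := by
  have hs : ei j i = ei i j := by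
    rw [ei_apply, ei_apply]
    by_cases h : i = j
    · rw [if_pos h, if_pos h.symm]
    · rw [if_neg h, if_neg (fun h' => h h'.symm)]
  rw [Wi_fderiv, Wi_fderiv, hs]
  ring

theorem Wi_le {s : ℝ} (hs : 0 < s) (x : E) (i : Fin 3) (y : E) : |Wi s x i y| ≤ s := by
  by_cases h : y ∈ ball x s
  · unfold Wi
    rw [abs_mul, abs_of_nonneg (ze_nonneg _ _)]
    rw [mem_ball, dist_eq_norm] at h
    calc ze s (y - x) * |(y - x) i| ≤ 1 * s :=
          mul_le_mul (ze_le_one _ _) ((coord_le _ i).trans h.le) (abs_nonneg _) zero_le_one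
      _ = s := one_mul s
  · rw [Wi_zero hs x i h, abs_zero]
    exact hs.le

section

variable {g : E → ℝ} (hg : ContDiff ℝ 1 g)

include hg in
/-- The derivative of the averages. -/
theorem Nf_deriv {s : ℝ} (hs : 0 < s) (x : E) :
    HasDerivAt (Nf g x) ((s ^ 4)⁻¹ * ∑ i, ∫ y, Wi s x i y * fderiv ℝ g y (ei i)) s := by
  have hgc := hg.continuous
  have h1 := Mz_hasDerivAt hgc hs x
  have h2 := (hasDerivAt_pow 3 s).inv (pow_pos hs 3).ne'
  have h3 := h2.mul h1
  have h4 : HasDerivAt (Nf g x) _ s := h3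
  refine h4.congr_deriv ?_
  -- integration by parts
  have e1 : ∀ i, ∫ y, Wi s x i y * fderiv ℝ g y (ei i)
      = -∫ y, g y * fderiv ℝ (Wi s x i) y (ei i) := by
    intro i
    have := int_fderiv_test hg (Wi_smooth s x i) (Wi_compact hs x i) (ei i)
    have e2 : ∫ y, Wi s x i y * fderiv ℝ g y (ei i) = ∫ y, fderiv ℝ g y (ei i) * Wi s x i y := by
      congr 1; funext y; ring
    rw [e2]
    linarith
  have hi : ∀ i, Integrable fun y => g y * fderiv ℝ (Wi s x i) y (ei i) := by
    intro i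
    have a1 : Continuous fun y => fderiv ℝ (Wi s x i) y (ei i) :=
      ((Wi_smooth s x i).continuous_fderiv (by norm_num)).clm_apply continuous_const
    have a3 : HasCompactSupport fun y => fderiv ℝ (Wi s x i) y (ei i) :=
      ((Wi_compact hs x i).fderiv (𝕜 := ℝ)).comp_left (g := fun L : E →L[ℝ] ℝ => L (ei i)) (by simp)
    exact (hgc.mul a1).integrable_of_hasCompactSupport a3.mul_left
  simp_rw [e1]
  rw [Finset.sum_neg_distrib, ← integral_finsetSum _ fun i _ => hi i]
  have e3 : ∀ y, ∑ i, g y * fderiv ℝ (Wi s x i) y (ei i)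
      = 3 * (ze s (y - x) * g y)
        - s * (deriv hh (‖y - x‖ ^ 2 / s ^ 2) * (-(2 * ‖y - x‖ ^ 2) / s ^ 3) * g y) := by
    intro y
    have hn : ‖y - x‖ ^ 2 = ∑ i, (y - x) i ^ 2 := by
      rw [EuclideanSpace.norm_sq_eq]
      exact Finset.sum_congr rfl fun i _ => by rw [Real.norm_eq_abs, sq_abs]
    simp_rw [Wi_fderiv, ei_apply]
    simp only [if_true, mul_one]
    rw [← Finset.mul_sum, Finset.sum_add_distrib]
    simp only [Finset.sum_const, Finset.card_univ, Fintype.card_fin, nsmul_eq_mul]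
    have e4 : ∑ i, Hh s x y * (y - x) i * (y - x) i = Hh s x y * ‖y - x‖ ^ 2 := by
      rw [hn, Finset.mul_sum]
      exact Finset.sum_congr rfl fun i _ => by ring
    rw [e4]
    unfold Hh
    push_cast
    field_simp
    ring
  simp_rw [e3]
  have i1 : Integrable fun y => 3 * (ze s (y - x) * g y) := (Mz_int hgc hs x).const_mul 3
  have i2 : Integrable fun y =>
      s * (deriv hh (‖y - x‖ ^ 2 / s ^ 2) * (-(2 * ‖y - x‖ ^ 2) / s ^ 3) * g y) := by
    refine Integrable.const_mul ?_ s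
    refine supp_int (x := x) (s := s) ?_ fun y hy => ?_
    · have hz : Continuous fun y : E => y - x := continuous_id.sub continuous_const
      have h1 : Continuous fun y : E => ‖y - x‖ ^ 2 / s ^ 2 := (hz.norm.pow 2).div_const _
      have h2 : Continuous fun y : E => deriv hh (‖y - x‖ ^ 2 / s ^ 2) := dhh_cont.comp h1
      have h3 : Continuous fun y : E => -(2 * ‖y - x‖ ^ 2) / s ^ 3 :=
        ((continuous_const.mul (hz.norm.pow 2)).neg).div_const _
      exact (h2.mul h3).mul hgc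
    · rw [mem_closedBall, dist_eq_norm, not_le] at hy
      rw [dhh_zero (ze_arg hs hy.le)]
      ring
  rw [integral_sub i1 i2, integral_const_mul, integral_const_mul]
  unfold Mz
  simp only [Pi.inv_apply]
  generalize (∫ y, ze s (y - x) * g y) = A
  generalize (∫ y, deriv hh (‖y - x‖ ^ 2 / s ^ 2) * (-(2 * ‖y - x‖ ^ 2) / s ^ 3) * g y) = B
  field_simp
  ring

/-- The averages converge to the value. -/
theorem Nf_tendsto {g : E → ℝ} (hg : Continuous g) (x : E) :
    Tendsto (Nf g x) (𝓝[>] 0) (𝓝 (Zt * g x)) := by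
  have hZ := Zt_pos
  rw [Metric.tendsto_nhdsWithin_nhds]
  intro ε hε
  obtain ⟨δ, hδ, hδ2⟩ := Metric.continuous_iff.1 hg x (ε / (2 * Zt)) (by positivity)
  refine ⟨δ, hδ, fun {s} hs hsd => ?_⟩
  have hs0 : 0 < s := hs
  rw [Real.dist_eq, sub_zero, abs_of_pos hs0] at hsd
  rw [Real.dist_eq]
  have e1 : Nf g x s - Zt * g x = (s ^ 3)⁻¹ * ∫ y, ze s (y - x) * (g y - g x) := by
    have e2 : ∫ y, ze s (y - x) * (g y - g x) = Mz g s x - s ^ 3 * Zt * g x := by
      have e3 : ∀ y, ze s (y - x) * (g y - g x) = ze s (y - x) * g y - ze s (y - x) * g x :=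
        fun y => by ring
      simp_rw [e3]
      rw [integral_sub (Mz_int hg hs0 x) ((ze_int hs0 x).mul_const _), integral_mul_const,
        mass hs0 x]
      rfl
    rw [e2]
    unfold Nf
    field_simp
  rw [e1, abs_mul, abs_of_pos (by positivity : 0 < (s ^ 3)⁻¹)]
  have h2 : |∫ y, ze s (y - x) * (g y - g x)| ≤ s ^ 3 * Zt * (ε / (2 * Zt)) := by
    rw [← mass hs0 x, ← integral_mul_const, ← Real.norm_eq_abs]
    refine norm_integral_le_of_norm_le ((ze_int hs0 x).mul_const _)
      (Filter.Eventually.of_forall fun y => ?_)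
    rw [Real.norm_eq_abs, abs_mul, abs_of_nonneg (ze_nonneg _ _)]
    by_cases hy : y ∈ ball x s
    · refine mul_le_mul_of_nonneg_left ?_ (ze_nonneg _ _)
      have := hδ2 y ((mem_ball.1 hy).trans hsd)
      rw [Real.dist_eq] at this
      exact this.le
    · rw [ze_sub_zero hs0 hy]
      simp
  calc (s ^ 3)⁻¹ * |∫ y, ze s (y - x) * (g y - g x)|
      ≤ (s ^ 3)⁻¹ * (s ^ 3 * Zt * (ε / (2 * Zt))) := mul_le_mul_of_nonneg_left h2 (by positivity)
    _ = ε / 2 := by field_simp
    _ < ε := by linarith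

include hg in
/-- The difference of the averages and the value. -/
theorem Nf_near {G : E → ℝ} (hG : Continuous G) (hgG : ∀ y v, |fderiv ℝ g y v| ≤ G y * ‖v‖)
    {x : E} {τ lam : ℝ} (hτ : 0 < τ)
    (hav : ∀ r, 0 < r → r ≤ τ → ∫ y in ball x r, G y ≤ lam * r ^ 3) :
    |Nf g x τ - Zt * g x| ≤ 3 * lam * τ := by
  have hG0 : ∀ y, 0 ≤ G y := by
    intro y
    have h1 := (abs_nonneg _).trans (hgG y (ei 0))
    rwa [norm_ei, mul_one] at h1
  have hd : ∀ s, 0 < s → s ≤ τ → |(s ^ 4)⁻¹ * ∑ i, ∫ y, Wi s x i y * fderiv ℝ g y (ei i)|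
      ≤ 3 * lam := by
    intro s hs hsτ
    have h1 : ∀ i, |∫ y, Wi s x i y * fderiv ℝ g y (ei i)| ≤ s * (lam * s ^ 3) := by
      intro i
      have hz : ∀ y, y ∉ ball x s → Wi s x i y * fderiv ℝ g y (ei i) = 0 := fun y hy => by
        rw [Wi_zero hs x i hy, zero_mul]
      rw [← setIntegral_eq_integral_of_forall_compl_eq_zero hz]
      refine le_trans ?_ (mul_le_mul_of_nonneg_left (hav s hs hsτ) hs.le)
      rw [← integral_const_mul, ← Real.norm_eq_abs]
      refine norm_integral_le_of_norm_le ((intOn_ball hG x s).const_mul _)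
        (Filter.Eventually.of_forall fun y => ?_)
      rw [Real.norm_eq_abs, abs_mul]
      refine mul_le_mul (Wi_le hs x i y) ?_ (abs_nonneg _) hs.le
      have := hgG y (ei i)
      rwa [norm_ei, mul_one] at this
    rw [abs_mul, abs_of_pos (by positivity : 0 < (s ^ 4)⁻¹)]
    have h2 : |∑ i, ∫ y, Wi s x i y * fderiv ℝ g y (ei i)| ≤ ∑ _i : Fin 3, s * (lam * s ^ 3) :=
      (Finset.abs_sum_le_sum_abs _ _).trans (Finset.sum_le_sum fun i _ => h1 i)
    simp only [Finset.sum_const, Finset.card_univ, Fintype.card_fin, nsmul_eq_mul] at h2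
    calc _ ≤ (s ^ 4)⁻¹ * (((3 : ℕ) : ℝ) * (s * (lam * s ^ 3))) :=
          mul_le_mul_of_nonneg_left h2 (by positivity)
      _ = 3 * lam := by
          push_cast
          field_simp
  have hlam : 0 ≤ lam := by
    have h1 := (abs_nonneg _).trans (hd τ hτ le_rfl)
    linarith
  have h1 : ∀ s, 0 < s → s < τ → |Nf g x τ - Nf g x s| ≤ 3 * lam * τ := by
    intro s hs hsτ
    have h2 := norm_image_sub_le_of_norm_deriv_le_segment' (f := Nf g x) (a := s) (b := τ)
      (C := 3 * lam) (f' := fun t => (t ^ 4)⁻¹ * ∑ i, ∫ y, Wi t x i y * fderiv ℝ g y (ei i))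
      (fun t ht => (Nf_deriv hg (hs.trans_le ht.1) x).hasDerivWithinAt)
      (fun t ht => by
        rw [Real.norm_eq_abs]
        exact hd t (hs.trans_le ht.1) ht.2.le) τ ⟨hsτ.le, le_rfl⟩
    rw [Real.norm_eq_abs] at h2
    refine h2.trans ?_
    refine mul_le_mul_of_nonneg_left (by linarith) (by positivity)
  have h2 : Tendsto (fun s => |Nf g x τ - Nf g x s|) (𝓝[>] 0) (𝓝 |Nf g x τ - Zt * g x|) :=
    (tendsto_const_nhds.sub (Nf_tendsto hg.continuous x)).abs
  refine le_of_tendsto h2 ?_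
  filter_upwards [Ioo_mem_nhdsGT hτ] with s hs
  exact h1 s hs.1 hs.2

end

section

variable {U : E → E} (hU : ContDiff ℝ 1 U) (hdiv : ∀ y, dvE U y = 0)

include hU in
theorem Ui_smooth (i : Fin 3) : ContDiff ℝ 1 fun y => U y i :=
  (EuclideanSpace.proj i : E →L[ℝ] ℝ).contDiff.comp hU

theorem cuE_le (U : E → E) (i k : Fin 3) (y : E) : |dU U i k y - dU U k i y| ≤ ‖cuE U y‖ := by
  have c0 : cuE U y 0 = dU U 1 2 y - dU U 2 1 y := rfl
  have c1 : cuE U y 1 = dU U 2 0 y - dU U 0 2 y := rfl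
  have c2 : cuE U y 2 = dU U 0 1 y - dU U 1 0 y := rfl
  have h0 := coord_le (cuE U y) 0
  have h1 := coord_le (cuE U y) 1
  have h2 := coord_le (cuE U y) 2
  rw [c0] at h0
  rw [c1] at h1
  rw [c2] at h2
  have hn := norm_nonneg (cuE U y)
  fin_cases i <;> fin_cases k <;> simp only [Fin.zero_eta, Fin.mk_one, Fin.reduceFinMk, Fin.isValue,
    sub_self, abs_zero] <;> first | assumption | (rw [abs_sub_comm]; assumption)

include hU hdiv in
/-- The derivative of the averages is controlled by the curl. -/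
theorem Nf_curl {s : ℝ} (hs : 0 < s) (x : E) (k : Fin 3) :
    |(s ^ 4)⁻¹ * ∑ i, ∫ y, Wi s x i y * fderiv ℝ (fun y => U y k) y (ei i)|
      ≤ 3 * (s ^ 3)⁻¹ * ∫ y in ball x s, ‖cuE U y‖ := by
  have hd : ∀ j k, Continuous (dU U j k) := fun j k =>
    ((Ui_smooth hU k).continuous_fderiv one_ne_zero).clm_apply continuous_const
  have hcu : Continuous fun y => ‖cuE U y‖ := by
    refine Continuous.norm ?_
    unfold cuE
    refine (PiLp.continuous_toLp 2 _).comp ?_
    refine continuous_pi fun i => ?_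
    fin_cases i
    · exact (hd 1 2).sub (hd 2 1)
    · exact (hd 2 0).sub (hd 0 2)
    · exact (hd 0 1).sub (hd 1 0)
  have hi : ∀ i j k, Integrable fun y => Wi s x i y * dU U j k y := fun i j k =>
    ((Wi_smooth s x i).continuous.mul (hd j k)).integrable_of_hasCompactSupport
      (Wi_compact hs x i).mul_right
  -- the other term vanishes
  have h0 : ∑ i, ∫ y, Wi s x i y * dU U k i y = 0 := by
    have hW : ∀ i j, Integrable fun y => U y i * fderiv ℝ (Wi s x j) y (ei i) := by
      intro i j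
      have a1 : Continuous fun y => fderiv ℝ (Wi s x j) y (ei i) :=
        ((Wi_smooth s x j).continuous_fderiv (by norm_num)).clm_apply continuous_const
      have a3 : HasCompactSupport fun y => fderiv ℝ (Wi s x j) y (ei i) :=
        ((Wi_compact hs x j).fderiv (𝕜 := ℝ)).comp_left
          (g := fun L : E →L[ℝ] ℝ => L (ei i)) (by simp)
      exact ((Ui_smooth hU i).continuous.mul a1).integrable_of_hasCompactSupport a3.mul_left
    have e1 : ∀ i, ∫ y, Wi s x i y * dU U k i y = ∫ y, Wi s x k y * dU U i i y := by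
      intro i
      have a1 := int_fderiv_test (Ui_smooth hU i) (Wi_smooth s x i) (Wi_compact hs x i) (ei k)
      have a2 := int_fderiv_test (Ui_smooth hU i) (Wi_smooth s x k) (Wi_compact hs x k) (ei i)
      have a3 : ∫ y, U y i * fderiv ℝ (Wi s x i) y (ei k)
          = ∫ y, U y i * fderiv ℝ (Wi s x k) y (ei i) := by
        congr 1
        funext y
        rw [Wi_symm]
      have b1 : ∫ y, Wi s x i y * dU U k i y
          = ∫ y, fderiv ℝ (fun y => U y i) y (ei k) * Wi s x i y := by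
        congr 1; funext y; unfold dU; ring
      have b2 : ∫ y, Wi s x k y * dU U i i y
          = ∫ y, fderiv ℝ (fun y => U y i) y (ei i) * Wi s x k y := by
        congr 1; funext y; unfold dU; ring
      rw [b1, b2]
      linarith
    simp_rw [e1]
    rw [← integral_finsetSum _ fun i _ => hi k i i]
    have e2 : ∀ y, ∑ i, Wi s x k y * dU U i i y = 0 := by
      intro y
      rw [← Finset.mul_sum]
      have : ∑ i, dU U i i y = dvE U y := by
        unfold dvE
        exact Finset.sum_congr rfl fun i _ => fderiv_coord (hU.differentiable one_ne_zero y) _ i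
      rw [this, hdiv, mul_zero]
    simp_rw [e2]
    exact integral_zero _ _
  have h1 : ∑ i, ∫ y, Wi s x i y * fderiv ℝ (fun y => U y k) y (ei i)
      = ∑ i, ∫ y, Wi s x i y * (dU U i k y - dU U k i y) := by
    have e1 : ∀ i, ∫ y, Wi s x i y * (dU U i k y - dU U k i y)
        = (∫ y, Wi s x i y * dU U i k y) - ∫ y, Wi s x i y * dU U k i y := by
      intro i
      rw [← integral_sub (hi i i k) (hi i k i)]
      congr 1
      funext y
      ring
    simp_rw [e1]
    rw [Finset.sum_sub_distrib, h0, sub_zero]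
    rfl
  rw [h1, abs_mul, abs_of_pos (by positivity : 0 < (s ^ 4)⁻¹)]
  have h2 : ∀ i, |∫ y, Wi s x i y * (dU U i k y - dU U k i y)|
      ≤ s * ∫ y in ball x s, ‖cuE U y‖ := by
    intro i
    have hz : ∀ y, y ∉ ball x s → Wi s x i y * (dU U i k y - dU U k i y) = 0 := fun y hy => by
      rw [Wi_zero hs x i hy, zero_mul]
    rw [← setIntegral_eq_integral_of_forall_compl_eq_zero hz, ← integral_const_mul,
      ← Real.norm_eq_abs]
    refine norm_integral_le_of_norm_le ((intOn_ball hcu x s).const_mul _)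
      (Filter.Eventually.of_forall fun y => ?_)
    rw [Real.norm_eq_abs, abs_mul]
    exact mul_le_mul (Wi_le hs x i y) (cuE_le U i k y) (abs_nonneg _) hs.le
  have h3 : |∑ i, ∫ y, Wi s x i y * (dU U i k y - dU U k i y)|
      ≤ ∑ _i : Fin 3, s * ∫ y in ball x s, ‖cuE U y‖ :=
    (Finset.abs_sum_le_sum_abs _ _).trans (Finset.sum_le_sum fun i _ => h2 i)
  simp only [Finset.sum_const, Finset.card_univ, Fintype.card_fin, nsmul_eq_mul] at h3
  refine (mul_le_mul_of_nonneg_left h3 (by positivity)).trans (le_of_eq ?_)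
  push_cast
  field_simp

include hU hdiv in
/-- The averages are controlled by the curl and the average at a large scale. -/
theorem Nf_far {L ρ : ℝ} (hL : 0 ≤ L) {x : E}
    (hM : ∀ s, 0 < s → s ≤ ρ → ∫ y in ball x s, ‖cuE U y‖ ≤ L * s) {τ : ℝ} (hτ : 0 < τ)
    (hτρ : τ ≤ ρ) (k : Fin 3) :
    |Nf (fun y => U y k) x τ| ≤ |Nf (fun y => U y k) x ρ| + 3 * L / τ := by
  set N := Nf (fun y => U y k) x with hN
  set N' : ℝ → ℝ := fun s =>
    (s ^ 4)⁻¹ * ∑ i, ∫ y, Wi s x i y * fderiv ℝ (fun y => U y k) y (ei i) with hN'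
  have hder : ∀ s, 0 < s → HasDerivAt N (N' s) s := fun s hs => Nf_deriv (Ui_smooth hU k) hs x
  have hb : ∀ s, 0 < s → s ≤ ρ → |N' s| ≤ 3 * L * (s ^ 2)⁻¹ := by
    intro s hs hsρ
    refine (Nf_curl hU hdiv hs x k).trans ?_
    refine (mul_le_mul_of_nonneg_left (hM s hs hsρ) (by positivity)).trans (le_of_eq ?_)
    field_simp
  have hinv : ∀ s : ℝ, 0 < s → HasDerivAt (fun s : ℝ => 3 * L * s⁻¹) (-(3 * L * (s ^ 2)⁻¹)) s := by
    intro s hs
    have := (hasDerivAt_inv hs.ne').const_mul (3 * L)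
    refine this.congr_deriv (by ring)
  have hpos : ∀ s ∈ Icc τ ρ, 0 < s := fun s hs => hτ.trans_le hs.1
  have m1 : MonotoneOn (fun s => N s - 3 * L * s⁻¹) (Icc τ ρ) := by
    refine monotoneOn_of_deriv_nonneg (convex_Icc τ ρ) ?_ ?_ ?_
    · exact fun s hs => ((hder s (hpos s hs)).sub (hinv s (hpos s hs))).continuousAt.continuousWithinAt
    · rw [interior_Icc]
      exact fun s hs => ((hder s (hpos s ⟨hs.1.le, hs.2.le⟩)).sub
        (hinv s (hpos s ⟨hs.1.le, hs.2.le⟩))).differentiableAt.differentiableWithinAt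
    · rw [interior_Icc]
      intro s hs
      have hs0 := hpos s ⟨hs.1.le, hs.2.le⟩
      have h1 := ((hder s hs0).sub (hinv s hs0)).deriv
      have h2 : deriv (fun s => N s - 3 * L * s⁻¹) s = N' s - -(3 * L * (s ^ 2)⁻¹) := h1
      rw [h2]
      have := (abs_le.1 (hb s hs0 hs.2.le)).1
      linarith
  have m2 : AntitoneOn (fun s => N s + 3 * L * s⁻¹) (Icc τ ρ) := by
    refine antitoneOn_of_deriv_nonpos (convex_Icc τ ρ) ?_ ?_ ?_
    · exact fun s hs => ((hder s (hpos s hs)).add (hinv s (hpos s hs))).continuousAt.continuousWithinAt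
    · rw [interior_Icc]
      exact fun s hs => ((hder s (hpos s ⟨hs.1.le, hs.2.le⟩)).add
        (hinv s (hpos s ⟨hs.1.le, hs.2.le⟩))).differentiableAt.differentiableWithinAt
    · rw [interior_Icc]
      intro s hs
      have hs0 := hpos s ⟨hs.1.le, hs.2.le⟩
      have h1 := ((hder s hs0).add (hinv s hs0)).deriv
      have h2 : deriv (fun s => N s + 3 * L * s⁻¹) s = N' s + -(3 * L * (s ^ 2)⁻¹) := h1
      rw [h2]
      have := (abs_le.1 (hb s hs0 hs.2.le)).2
      linarith
  have h1 : N τ - 3 * L * τ⁻¹ ≤ N ρ - 3 * L * ρ⁻¹ := m1 ⟨le_rfl, hτρ⟩ ⟨hτρ, le_rfl⟩ hτρ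
  have h2 : N ρ + 3 * L * ρ⁻¹ ≤ N τ + 3 * L * τ⁻¹ := m2 ⟨le_rfl, hτρ⟩ ⟨hτρ, le_rfl⟩ hτρ
  have h3 : 0 ≤ 3 * L * ρ⁻¹ := by
    have := hτ.trans_le hτρ
    positivity
  have e1 : 3 * L / τ = 3 * L * τ⁻¹ := rfl
  rw [e1]
  have a1 := neg_abs_le (N ρ)
  have a2 := le_abs_self (N ρ)
  rw [abs_le]
  constructor <;> linarith

end

end Pool.Agent.R211.CW
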