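import Pool.Agent.R211.CW.Av

/-!
The fourth power of a divergence free field whose curl is in a critical Morrey space.
-/

open MeasureTheory Set Metric Filter Topology
open scoped ContDiff RealInnerProductSpace ENNReal
open Pool.Agent.R210 Pool.Agent.R211.CD Pool.Agent.R211.CE

namespace Pool.Agent.R211.CW

/-- The constant of the bound of the fourth power. -/
noncomputable def K4 : ℝ := 1568 / Zt ^ 2 + 3612672 * v3 ^ 2 / Zt ^ 4

theorem K4_pos : 0 < K4 := by
  have h1 := Zt_pos
  have h2 := v3_pos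
  unfold K4
  positivity

/-- The average at a large scale. -/
theorem Nf_large {g : E → ℝ} (hg : Continuous g) {ρ : ℝ} (hρ : 0 < ρ) (x : E) :
    |Nf g x ρ| ≤ (ρ ^ 3)⁻¹ * ∫ y in ball x ρ, |g y| := by
  unfold Nf
  rw [abs_mul, abs_of_pos (by positivity : 0 < (ρ ^ 3)⁻¹)]
  refine mul_le_mul_of_nonneg_left ?_ (by positivity)
  unfold Mz
  have hz : ∀ y, y ∉ ball x ρ → ze ρ (y - x) * g y = 0 := fun y hy => by
    rw [ze_sub_zero hρ hy, zero_mul]
  rw [← setIntegral_eq_integral_of_forall_compl_eq_zero hz, ← Real.norm_eq_abs]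
  refine norm_integral_le_of_norm_le (intOn_ball hg.abs x ρ)
    (Filter.Eventually.of_forall fun y => ?_)
  rw [Real.norm_eq_abs, abs_mul, abs_of_nonneg (ze_nonneg _ _)]
  exact mul_le_of_le_one_left (abs_nonneg _) (ze_le_one _ _)

/-- **The fourth power.** -/
theorem L4_le {U : E → E} (hU : ContDiff ℝ 1 U) (hdiv : ∀ y, dvE U y = 0) {L R : ℝ} (hL : 0 < L)
    (hR : 0 < R) (hM : ∀ x s, 0 < s → s ≤ R / 2 → ∫ y in ball x s, ‖cuE U y‖ ≤ L * s)
    (hN : ∀ x, ∫ y in ball x R, ‖U y‖ ≤ L * R ^ 2) (k : Fin 3) :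
    ∫⁻ y, ENNReal.ofReal (U y k ^ 4)
      ≤ ENNReal.ofReal (K4 * L ^ 2 / R ^ 2) * (∫⁻ y, ENNReal.ofReal (U y k ^ 2))
        + ENNReal.ofReal (K4 * L ^ 2)
          * ∫⁻ y, ENNReal.ofReal (‖fderiv ℝ (fun z => U z k) y‖ ^ 2) := by
  have hZ := Zt_pos
  have hv := v3_pos
  have hg := Ui_smooth hU k
  set g : E → ℝ := fun z => U z k with hgd
  set G : E → ℝ := fun y => ‖fderiv ℝ g y‖ with hG
  have hGc : Continuous G := (hg.continuous_fderiv one_ne_zero).norm
  set κ : ℝ := Zt ^ 2 / (84 * L) with hκ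
  have hκ0 : 0 < κ := by positivity
  set s0 : ℝ := 28 * L / (Zt * R) with hs0
  have hs00 : 0 < s0 := by positivity
  have key := lev4 (h := fun y => |g y|) (g := G) (κ := κ) (R := R / 2) (s0 := s0)
    hg.continuous.abs (fun y => abs_nonneg _) hGc (fun y => norm_nonneg _) hκ0 hs00.le ?_
  · have e4 : ∀ y, |g y| ^ 4 = U y k ^ 4 := fun y => by
      rw [show (4 : ℕ) = 2 * 2 by norm_num, pow_mul, sq_abs, ← pow_mul]
    have e2 : ∀ y, |g y| ^ 2 = U y k ^ 2 := fun y => sq_abs _
    simp_rw [e4, e2] at key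
    refine key.trans ?_
    have a1 : 2 * s0 ^ 2 ≤ K4 * L ^ 2 / R ^ 2 := by
      have e1 : 2 * s0 ^ 2 = 1568 / Zt ^ 2 * L ^ 2 / R ^ 2 := by
        rw [hs0]; field_simp; norm_num
      rw [e1]
      refine div_le_div_of_nonneg_right (mul_le_mul_of_nonneg_right ?_ (by positivity))
        (by positivity)
      unfold K4
      have : 0 ≤ 3612672 * v3 ^ 2 / Zt ^ 4 := by positivity
      linarith
    have a2 : 512 * v3 ^ 2 / κ ^ 2 ≤ K4 * L ^ 2 := by
      have e1 : 512 * v3 ^ 2 / κ ^ 2 = 3612672 * v3 ^ 2 / Zt ^ 4 * L ^ 2 := by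
        rw [hκ]; field_simp; norm_num
      rw [e1]
      refine mul_le_mul_of_nonneg_right ?_ (by positivity)
      unfold K4
      have : 0 ≤ 1568 / Zt ^ 2 := by positivity
      linarith
    gcongr
  · intro x s hs hss hsx
    by_contra hcon
    push Not at hcon
    set τ : ℝ := 14 * L / (Zt * s) with hτ
    have hτ0 : 0 < τ := by positivity
    have hτR : τ ≤ R / 2 := by
      rw [hτ, div_le_iff₀ (by positivity)]
      rw [hs0, div_le_iff₀ (by positivity)] at hss
      linarith
    have h1 := Nf_near hg hGc (fun y v => by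
      have := (fderiv ℝ g y).le_opNorm v
      rwa [Real.norm_eq_abs] at this) (x := x) (τ := τ) (lam := κ * s ^ 2) hτ0
      fun r hr hrτ => hcon r hr (hrτ.trans hτR)
    have h2 := Nf_far hU hdiv hL.le (ρ := R / 2) (x := x) (hM x) hτ0 hτR k
    have h3 : |Nf (fun y => U y k) x (R / 2)| ≤ 8 * L / R := by
      refine (Nf_large hg.continuous (by positivity) x).trans ?_
      have h4 : ∫ y in ball x (R / 2), |g y| ≤ L * R ^ 2 := by
        refine le_trans ?_ (hN x)
        refine le_trans ?_ (setIntegral_mono_set (intOn_ball hU.continuous.norm x R)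
          (Filter.Eventually.of_forall fun y => norm_nonneg _)
          (ball_subset_ball (by linarith : R / 2 ≤ R)).eventuallyLE)
        exact setIntegral_mono (intOn_ball hg.continuous.abs x _)
          (intOn_ball hU.continuous.norm x _) fun y => coord_le (U y) k
      calc ((R / 2) ^ 3)⁻¹ * ∫ y in ball x (R / 2), |g y|
          ≤ ((R / 2) ^ 3)⁻¹ * (L * R ^ 2) := mul_le_mul_of_nonneg_left h4 (by positivity)
        _ = 8 * L / R := by field_simp; norm_num
    have h5 : 8 * L / R ≤ 4 * L / τ := by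
      rw [div_le_div_iff₀ hR hτ0]
      nlinarith
    have h6 : Zt * |g x| ≤ |Nf g x τ| + 3 * (κ * s ^ 2) * τ := by
      have a1 := (abs_le.1 h1)
      have e1 : Zt * |g x| = |Zt * g x| := by rw [abs_mul, abs_of_pos hZ]
      rw [e1, abs_le]
      have b1 := neg_abs_le (Nf g x τ)
      have b2 := le_abs_self (Nf g x τ)
      constructor
      · linarith [a1.2]
      · linarith [a1.1]
    have h7 : Zt * |g x| ≤ 7 * L / τ + 3 * (κ * s ^ 2) * τ := by
      have e1 : 7 * L / τ = 4 * L / τ + 3 * L / τ := by ring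
      rw [e1]
      linarith
    have e8 : 7 * L / τ + 3 * (κ * s ^ 2) * τ = Zt * s := by
      rw [hτ, hκ]
      field_simp
      norm_num
    rw [e8] at h7
    have h9 : |g x| ≤ s := le_of_mul_le_mul_left h7 hZ
    exact absurd hsx (not_lt.2 h9)

end Pool.Agent.R211.CW
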