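import Pool.Agent.R211.CW.FluxE
import Pool.Agent.R211.CW.L4
import Pool.Agent.R211.CE.Per
import Pool.Agent.TH340.FF.Form5

/-!
The fourth power of a field in `H¹_{0,σ}(Ω)` whose vorticity lies in cones.
-/

open MeasureTheory Set Metric Filter Topology
open scoped ContDiff RealInnerProductSpace ENNReal
open H772R2.NS Pool.Agent.TH340.FF Pool.Agent.R210 Pool.Agent.R211.CD Pool.Agent.R211.CE

namespace Pool.Agent.R211.CW

/-- The vorticity of a matrix. -/
noncomputable def crl (A : M3) : E3 :=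
  WithLp.toLp 2 ![A (2, 1) - A (1, 2), A (0, 2) - A (2, 0), A (1, 0) - A (0, 1)]

theorem crl_sub (A B : M3) : crl (A - B) = crl A - crl B := by
  ext i
  fin_cases i <;> simp [crl] <;> ring

theorem crl_zero : crl 0 = 0 := by
  ext i
  fin_cases i <;> simp [crl]

theorem crl_norm_sq (A : M3) : ‖crl A‖ ^ 2 ≤ 2 * ‖A‖ ^ 2 := by
  rw [norm_sq_E3, norm_sq_M3]
  simp only [Fin.sum_univ_three]
  have e0 : crl A 0 = A (2, 1) - A (1, 2) := rfl
  have e1 : crl A 1 = A (0, 2) - A (2, 0) := rfl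
  have e2 : crl A 2 = A (1, 0) - A (0, 1) := rfl
  rw [e0, e1, e2]
  nlinarith [sq_nonneg (A (2, 1) + A (1, 2)), sq_nonneg (A (0, 2) + A (2, 0)),
    sq_nonneg (A (1, 0) + A (0, 1)), sq_nonneg (A (0, 0)), sq_nonneg (A (1, 1)),
    sq_nonneg (A (2, 2))]

theorem crl_cont : Continuous crl := by
  unfold crl
  refine (PiLp.continuous_toLp 2 _).comp (continuous_pi fun i => ?_)
  fin_cases i <;> simp <;> fun_prop

theorem dU_jac {φ : E3 → E3} (h : ContDiff ℝ 1 φ) (j k : Fin 3) (y : E3) :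
    dU φ j k y = jac φ y (k, j) := by
  unfold dU
  have h1 : HasFDerivAt φ (fderiv ℝ φ y) y := (h.differentiable one_ne_zero y).hasFDerivAt
  have h2 : HasFDerivAt (fun z => φ z k)
      ((EuclideanSpace.proj k : E3 →L[ℝ] ℝ).comp (fderiv ℝ φ y)) y :=
    (EuclideanSpace.proj k : E3 →L[ℝ] ℝ).hasFDerivAt.comp y h1
  rw [h2.fderiv]
  rfl

theorem cuE_jac {φ : E3 → E3} (h : ContDiff ℝ 1 φ) (y : E3) : cuE φ y = crl (jac φ y) := by
  unfold cuE crl
  simp only [dU_jac h]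

theorem dvE_test {φ : E3 → E3} {Ω : Set E3} (h : IsTest Ω φ) (y : E3) : dvE φ y = 0 := by
  have := h.divfree y
  exact this

/-- The derivative of a component. -/
theorem dU_smooth {φ : E3 → E3} (h : ContDiff ℝ ∞ φ) (j k : Fin 3) :
    ContDiff ℝ ∞ (dU φ j k) := by
  have h1 : ContDiff ℝ ∞ fun z => φ z k := (EuclideanSpace.proj k : E3 →L[ℝ] ℝ).contDiff.comp h
  unfold dU
  exact (h1.fderiv_right (m := ∞) (by norm_cast)).clm_apply contDiff_const

/-- The second derivatives are symmetric. -/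
theorem dU_symm {φ : E3 → E3} (h : ContDiff ℝ ∞ φ) (i j k : Fin 3) (y : E3) :
    fderiv ℝ (dU φ j k) y (ei i) = fderiv ℝ (dU φ i k) y (ei j) := by
  have h1 : ContDiff ℝ ∞ fun z => φ z k := (EuclideanSpace.proj k : E3 →L[ℝ] ℝ).contDiff.comp h
  have h2 : Differentiable ℝ (fderiv ℝ fun z => φ z k) :=
    (h1.fderiv_right (m := ∞) (by norm_cast)).differentiable (by norm_num)
  have e1 : ∀ a b : Fin 3, fderiv ℝ (dU φ a k) y (ei b)
      = fderiv ℝ (fderiv ℝ fun z => φ z k) y (ei b) (ei a) := by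
    intro a b
    unfold dU
    rw [fderiv_clm_apply (h2 y) (differentiableAt_const _)]
    simp
  rw [e1, e1]
  have h3 : IsSymmSndFDerivAt ℝ (fun z => φ z k) y :=
    h1.contDiffAt.isSymmSndFDerivAt (by
      simp only [minSmoothness_of_isRCLikeNormedField]
      exact WithTop.coe_le_coe.2 le_top)
  exact h3.eq _ _

theorem cuE_smooth {φ : E3 → E3} (h : ContDiff ℝ ∞ φ) : ContDiff ℝ ∞ (cuE φ) := by
  have h1 : ContDiff ℝ ∞ fun y => (![dU φ 1 2 y - dU φ 2 1 y, dU φ 2 0 y - dU φ 0 2 y,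
      dU φ 0 1 y - dU φ 1 0 y] : Fin 3 → ℝ) := by
    refine contDiff_pi.2 fun i => ?_
    fin_cases i
    · exact (dU_smooth h 1 2).sub (dU_smooth h 2 1)
    · exact (dU_smooth h 2 0).sub (dU_smooth h 0 2)
    · exact (dU_smooth h 0 1).sub (dU_smooth h 1 0)
  exact ((EuclideanSpace.equiv (Fin 3) ℝ).symm : (Fin 3 → ℝ) →L[ℝ] E3).contDiff.comp h1

theorem dvE_cuE {φ : E3 → E3} (h : ContDiff ℝ ∞ φ) (y : E3) : dvE (cuE φ) y = 0 := by
  have h0 := (cuE_smooth h).differentiable (by norm_num) y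
  have hc : ∀ i : Fin 3, fderiv ℝ (cuE φ) y (ei i) i
      = fderiv ℝ (fun z => cuE φ z i) y (ei i) := by
    intro i
    have h2 : HasFDerivAt (fun z => cuE φ z i)
        ((EuclideanSpace.proj i : E3 →L[ℝ] ℝ).comp (fderiv ℝ (cuE φ) y)) y :=
      (EuclideanSpace.proj i : E3 →L[ℝ] ℝ).hasFDerivAt.comp y h0.hasFDerivAt
    rw [h2.fderiv]
    rfl
  have hd : ∀ j k, DifferentiableAt ℝ (dU φ j k) y := fun j k =>
    (dU_smooth h j k).differentiable (by norm_num) y
  unfold dvE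
  simp only [hc, Fin.sum_univ_three]
  have e0 : (fun z => cuE φ z 0) = dU φ 1 2 - dU φ 2 1 := rfl
  have e1 : (fun z => cuE φ z 1) = dU φ 2 0 - dU φ 0 2 := rfl
  have e2 : (fun z => cuE φ z 2) = dU φ 0 1 - dU φ 1 0 := rfl
  rw [e0, e1, e2, fderiv_sub (hd _ _) (hd _ _), fderiv_sub (hd _ _) (hd _ _),
    fderiv_sub (hd _ _) (hd _ _)]
  simp only [ContinuousLinearMap.sub_apply]
  rw [dU_symm h 0 1 2, dU_symm h 0 2 1, dU_symm h 1 2 0]
  ring

/-- The norm of a differential. -/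
theorem sq_fderiv_le (L : E3 →L[ℝ] ℝ) : ‖L‖ ^ 2 ≤ ∑ j, L (ei j) ^ 2 := by
  set S := ∑ j, L (ei j) ^ 2 with hS
  have hS0 : 0 ≤ S := Finset.sum_nonneg fun j _ => sq_nonneg _
  have h1 : ‖L‖ ≤ Real.sqrt S := by
    refine L.opNorm_le_bound (Real.sqrt_nonneg _) fun v => ?_
    have e1 : v = ∑ j, v j • ei j := by
      ext i
      simp [ei, Finset.sum_apply, Pi.single_apply]
    have e2 : L v = ∑ j, v j * L (ei j) := by
      conv_lhs => rw [e1]
      simp
    rw [e2, Real.norm_eq_abs]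
    refine abs_le_of_sq_le_sq ?_ (by positivity)
    rw [mul_pow, Real.sq_sqrt hS0, norm_sq_E3]
    have := Finset.sum_mul_sq_le_sq_mul_sq Finset.univ (fun j => v j) fun j => L (ei j)
    linarith [mul_comm (∑ j, v j ^ 2) S]
  calc ‖L‖ ^ 2 ≤ Real.sqrt S ^ 2 := pow_le_pow_left₀ (norm_nonneg _) h1 2
    _ = S := Real.sq_sqrt hS0

theorem one_le_Cf : 1 ≤ Cf := by
  have h1 := one_le_HB
  have h2 := v3_pos
  have h3 : 0 < hh (1 / 4) := hh_pos (by norm_num)
  have h4 : hh (1 / 4) ≤ 1 := hh_le_one _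
  unfold Cf
  rw [one_le_div (by positivity)]
  have h5 : hh (1 / 4) ^ 2 ≤ 1 := pow_le_one₀ h3.le h4
  nlinarith [mul_pos (by linarith : (0 : ℝ) < HB) h2]

theorem int_pow {f : E3 → ℝ} (hf : Continuous f) (hc : HasCompactSupport f) {n : ℕ} (hn : n ≠ 0) :
    Integrable fun y => f y ^ n := by
  have h1 : Continuous fun y => f y ^ n := hf.pow n
  have h2 : HasCompactSupport fun y => f y ^ n :=
    hc.comp_left (g := fun t : ℝ => t ^ n) (zero_pow hn)
  exact h1.integrable_of_hasCompactSupport h2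

/-- The integral of the length over a ball. -/
theorem len_ball {φ : E3 → E3} {Ω : Set E3} (h : IsTest Ω φ) {q : L2V Ω × L2M Ω}
    (h2 : q.1 =ᵐ[volume.restrict Ω] φ) (x : E3) {R : ℝ} (hR : 0 < R) :
    ∫ y in ball x R, ‖φ y‖ ≤ Real.sqrt (v3 / R) * ‖q.1‖ * R ^ 2 := by
  have hv := v3_pos
  have hc : Continuous fun y => ‖φ y‖ := h.smooth.continuous.norm
  have h3 := cs_ball hc x hR
  have hi : Integrable fun y => ‖φ y‖ ^ 2 := int_pow hc h.compact.norm two_ne_zero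
  have h4 : ∫ y in ball x R, ‖φ y‖ ^ 2 ≤ ‖q.1‖ ^ 2 := by
    rw [norm_test1 h h2]
    simp_rw [← norm_sq_E3]
    exact setIntegral_le_integral hi (Filter.Eventually.of_forall fun y => sq_nonneg _)
  have h5 : (∫ y in ball x R, ‖φ y‖) ^ 2 ≤ (Real.sqrt (v3 / R) * ‖q.1‖ * R ^ 2) ^ 2 := by
    have e1 : (Real.sqrt (v3 / R) * ‖q.1‖ * R ^ 2) ^ 2
        = Real.sqrt (v3 / R) ^ 2 * ‖q.1‖ ^ 2 * R ^ 4 := by ring
    rw [e1, Real.sq_sqrt (by positivity)]
    have e2 : v3 / R * ‖q.1‖ ^ 2 * R ^ 4 = v3 * R ^ 3 * ‖q.1‖ ^ 2 := by field_simp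
    rw [e2]
    exact h3.trans (mul_le_mul_of_nonneg_left h4 (by positivity))
  exact le_of_sq_le_sq h5 (by positivity)

/-- The size of the vorticity in the critical Morrey space. -/
noncomputable def Lq (σ κ R a d : ℝ) : ℝ :=
  Cf / σ ^ 2 * (κ * R ^ 2 + Real.sqrt (v3 / R) * a + Real.sqrt R * (3 * d))

theorem Lq_pos {σ κ R a d : ℝ} (hσ : 0 < σ) (hκ : 0 < κ) (hR : 0 < R) (ha : 0 ≤ a) (hd : 0 ≤ d) :
    0 < Lq σ κ R a d := by
  have h1 := Cf_pos
  have h2 := v3_pos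
  unfold Lq
  positivity

/-- The vorticity of a gradient lies in cones at the scale `R` where it is larger than `K`. -/
def CoE (Ω : Set E3) (G : E3 → M3) (σ K R : ℝ) : Prop := ∀ x : E3, ∃ e : E3, ‖e‖ = 1 ∧
  ∀ᵐ y ∂volume.restrict Ω, y ∈ ball x R → K < ‖crl (G y)‖ → σ * ‖crl (G y)‖ ≤ ⟪e, crl (G y)⟫

/-- The Morrey bound of a test field close to a field whose vorticity lies in cones. -/
theorem test_mor {φ : E3 → E3} {Ω : Set E3} (hΩ : MeasurableSet Ω) (h : IsTest Ω φ)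
    {q : L2V Ω × L2M Ω} (h2 : q.1 =ᵐ[volume.restrict Ω] φ)
    (h3 : q.2 =ᵐ[volume.restrict Ω] jac φ) {G : L2M Ω} {σ K R : ℝ} (hσ : 0 < σ) (hσ1 : σ ≤ 1)
    (hK : 0 < K) (hR : 0 < R) (hG : CoE Ω G σ K R) (x : E3) {r : ℝ} (hr : 0 < r)
    (hrR : r ≤ R / 2) :
    ∫ y in ball x r, ‖cuE φ y‖ ≤ Lq σ (2 * K) R ‖q.1‖ ‖q.2 - G‖ * r := by
  have hv := v3_pos
  have hCf := Cf_pos
  set D : L2M Ω := q.2 - G with hD
  have hDe : ∀ᵐ y ∂volume.restrict Ω, crl (D y) = cuE φ y - crl (G y) := by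
    filter_upwards [Lp.coeFn_sub q.2 G, h3] with y h4 h5
    rw [hD, h4, Pi.sub_apply, h5, crl_sub, cuE_jac (h.smooth.of_le (by norm_cast))]
  obtain ⟨e, he, hcone⟩ := hG x
  set er : E3 → ℝ := Ω.indicator fun y => 2 * ‖crl (D y)‖ with her
  have hDm : AEStronglyMeasurable (fun y => 2 * ‖crl (D y)‖) (volume.restrict Ω) :=
    ((crl_cont.comp_aestronglyMeasurable (Lp.aestronglyMeasurable D)).norm).const_mul _
  have hDl : ∀ y, (2 * ‖crl (D y)‖) ^ 2 ≤ 9 * ‖D y‖ ^ 2 := fun y => by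
    have := crl_norm_sq (D y)
    nlinarith [sq_nonneg ‖D y‖]
  have hDi : Integrable (fun y => ‖D y‖ ^ 2) (volume.restrict Ω) :=
    (Lp.memLp D).integrable_norm_pow (by norm_num)
  have hDs : Integrable (fun y => (2 * ‖crl (D y)‖) ^ 2) (volume.restrict Ω) := by
    refine (hDi.const_mul 9).mono' (hDm.pow 2) (Filter.Eventually.of_forall fun y => ?_)
    rw [Real.norm_eq_abs, abs_of_nonneg (sq_nonneg _)]
    exact hDl y
  have hDn : ∫ y in Ω, ‖D y‖ ^ 2 = ‖D‖ ^ 2 := by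
    rw [← real_inner_self_eq_norm_sq, L2.inner_def]
    refine integral_congr_ae (Filter.Eventually.of_forall fun y => ?_)
    exact (real_inner_self_eq_norm_sq _).symm
  have her2 : Integrable (fun y => er y ^ 2) := by
    have e1 : (fun y => er y ^ 2) = Ω.indicator fun y => (2 * ‖crl (D y)‖) ^ 2 := by
      funext y
      by_cases hy : y ∈ Ω
      · simp only [her, indicator_of_mem hy]
      · simp only [her, indicator_of_notMem hy]
        norm_num
    rw [e1, integrable_indicator_iff hΩ]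
    exact hDs
  have herm : AEStronglyMeasurable er volume := (aestronglyMeasurable_indicator_iff hΩ).2 hDm
  have hmem : MemLp er 2 (volume.restrict (ball x R)) :=
    (memLp_two_iff_integrable_sq (herm.mono_measure Measure.restrict_le_self)).2
      (her2.mono_measure Measure.restrict_le_self)
  have her1 : IntegrableOn er (ball x R) := by
    have : IsFiniteMeasure (volume.restrict (ball x R)) :=
      ⟨by rw [Measure.restrict_apply_univ]; exact measure_ball_lt_top⟩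
    exact hmem.integrable (by norm_num)
  have hδ2 : ∫ y in ball x R, er y ^ 2 ≤ (3 * ‖D‖) ^ 2 := by
    refine (setIntegral_le_integral her2 (Filter.Eventually.of_forall fun y =>
      sq_nonneg _)).trans ?_
    have e1 : (fun y => er y ^ 2) = Ω.indicator fun y => (2 * ‖crl (D y)‖) ^ 2 := by
      funext y
      by_cases hy : y ∈ Ω
      · simp only [her, indicator_of_mem hy]
      · simp only [her, indicator_of_notMem hy]
        norm_num
    rw [e1, integral_indicator hΩ]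
    refine (integral_mono hDs (hDi.const_mul 9) hDl).trans ?_
    rw [integral_const_mul, hDn]
    exact le_of_eq (by ring)
  have hpt : ∀ᵐ y ∂volume.restrict (ball x R),
      σ * ‖cuE φ y‖ - 2 * K - er y ≤ ⟪e, cuE φ y⟫ := by
    have hcone' := (ae_restrict_iff' hΩ).1 hcone
    have hDe' := (ae_restrict_iff' hΩ).1 hDe
    have a1 := ae_restrict_of_ae (s := ball x R) hcone'
    have a2 := ae_restrict_of_ae (s := ball x R) hDe'
    filter_upwards [a1, a2, ae_restrict_mem measurableSet_ball] with y b1 b2 b3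
    by_cases hy : y ∈ Ω
    · have c1 := b1 hy b3
      have c2 := b2 hy
      simp only [her, indicator_of_mem hy]
      set w := cuE φ y
      set d := crl (D y)
      set z := crl (G y)
      have c3 : w = z + d := by rw [c2]; abel
      have c4 : |⟪e, d⟫| ≤ ‖d‖ := by
        have := abs_real_inner_le_norm e d
        rwa [he, one_mul] at this
      have c5 : ‖w‖ ≤ ‖z‖ + ‖d‖ := by rw [c3]; exact norm_add_le _ _
      have c6 : ⟪e, w⟫ = ⟪e, z⟫ + ⟪e, d⟫ := by rw [c3, inner_add_right]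
      have c7 : |⟪e, z⟫| ≤ ‖z‖ := by
        have := abs_real_inner_le_norm e z
        rwa [he, one_mul] at this
      have c8 : σ * ‖w‖ ≤ σ * ‖z‖ + ‖d‖ := by
        have d1 : σ * ‖w‖ ≤ σ * (‖z‖ + ‖d‖) := mul_le_mul_of_nonneg_left c5 hσ.le
        have d2 : σ * ‖d‖ ≤ ‖d‖ := mul_le_of_le_one_left (norm_nonneg _) hσ1
        linarith
      have c9 := (abs_le.1 c4).1
      have c10 := (abs_le.1 c7).1
      by_cases hz : K < ‖z‖
      · have := c1 hz
        linarith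
      · push Not at hz
        have d2 : σ * ‖z‖ ≤ ‖z‖ := mul_le_of_le_one_left (norm_nonneg _) hσ1
        linarith
    · have c1 : cuE φ y = 0 := by
        rw [cuE_jac (h.smooth.of_le (by norm_cast))]
        have : jac φ y = 0 := image_eq_zero_of_notMem_tsupport fun hc =>
          hy (h.supp (tsupport_jac_subset hc))
        rw [this, crl_zero]
      simp only [her, indicator_of_notMem hy, c1, norm_zero, inner_zero_right]
      linarith
  have key := flux_err (h.smooth.of_le (by norm_cast)) ((cuE_smooth h.smooth).of_le (by norm_cast))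
    (dvE_cuE h.smooth) (fun _ => rfl) (x := x) (e := e) (R := R) (κ := 2 * K) (σ := σ) hR
    (by positivity) hσ hσ1 he (er := er) (δ := 3 * ‖D‖) (by positivity) her1
    (her2.mono_measure Measure.restrict_le_self) hδ2 hpt hr hrR
  refine key.trans ?_
  have h6 := len_ball h h2 x hR
  have h7 : ((∫ y in ball x R, ‖φ y‖) + Real.sqrt R * (3 * ‖D‖) * R ^ 2) / R ^ 2
      ≤ Real.sqrt (v3 / R) * ‖q.1‖ + Real.sqrt R * (3 * ‖D‖) := by
    rw [div_le_iff₀ (by positivity)]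
    linarith
  unfold Lq
  calc _ ≤ Cf / σ ^ 2 * r * (2 * K * R ^ 2 + (Real.sqrt (v3 / R) * ‖q.1‖
        + Real.sqrt R * (3 * ‖D‖))) :=
        mul_le_mul_of_nonneg_left (by linarith) (by positivity)
    _ = _ := by ring

/-- The fourth power of a test field. -/
theorem test_four {φ : E3 → E3} {Ω : Set E3} (hΩ : MeasurableSet Ω) (h : IsTest Ω φ)
    {q : L2V Ω × L2M Ω} (h2 : q.1 =ᵐ[volume.restrict Ω] φ)
    (h3 : q.2 =ᵐ[volume.restrict Ω] jac φ) {L R : ℝ} (hL : 0 < L) (hR : 0 < R)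
    (hM : ∀ x s, 0 < s → s ≤ R / 2 → ∫ y in ball x s, ‖cuE φ y‖ ≤ L * s)
    (hN : ∀ x, ∫ y in ball x R, ‖φ y‖ ≤ L * R ^ 2) :
    ‖tensL q.1‖ ^ 2 ≤ 3 * K4 * L ^ 2 * (‖q.1‖ ^ 2 / R ^ 2 + ‖q.2‖ ^ 2) := by
  have hqW : q ∈ graphW Ω := preW_le ⟨φ, h, h2, h3⟩
  have hK4 := K4_pos
  have hC1 : ContDiff ℝ 1 φ := h.smooth.of_le (by norm_cast)
  have hc : ∀ k, Continuous fun y => φ y k := fun k =>
    (EuclideanSpace.proj k : E3 →L[ℝ] ℝ).continuous.comp h.smooth.continuous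
  have hcs : ∀ k : Fin 3, HasCompactSupport fun y => φ y k := fun k =>
    h.compact.comp_left (g := fun z : E3 => z k) rfl
  have hj : ∀ k j : Fin 3, Continuous fun y => jac φ y (k, j) := fun k j => by
    have := (dU_smooth h.smooth j k).continuous
    simp_rw [← dU_jac hC1]
    exact this
  have hjs : ∀ k j : Fin 3, HasCompactSupport fun y => jac φ y (k, j) := fun k j => by
    have h1 : HasCompactSupport (jac φ) :=
      h.compact.mono' ((subset_tsupport _).trans tsupport_jac_subset)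
    exact h1.comp_left (g := fun z : M3 => z (k, j)) rfl
  have i4 : ∀ k, Integrable fun y => φ y k ^ 4 := fun k => int_pow (hc k) (hcs k) four_ne_zero
  have i2 : ∀ k, Integrable fun y => φ y k ^ 2 := fun k => int_pow (hc k) (hcs k) two_ne_zero
  have ij : ∀ k j, Integrable fun y => jac φ y (k, j) ^ 2 := fun k j =>
    int_pow (hj k j) (hjs k j) two_ne_zero
  have isum : ∀ k, Integrable fun y => ∑ j, jac φ y (k, j) ^ 2 := fun k =>
    integrable_finset_sum _ fun j _ => ij k j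
  have hk : ∀ k : Fin 3, ∫ y, φ y k ^ 4 ≤ K4 * L ^ 2 / R ^ 2 * (∫ y, φ y k ^ 2)
      + K4 * L ^ 2 * ∫ y, ∑ j, jac φ y (k, j) ^ 2 := by
    intro k
    have key := L4_le hC1 (dvE_test h) hL hR hM hN k
    have a1 : ∫⁻ y, ENNReal.ofReal (‖fderiv ℝ (fun z => φ z k) y‖ ^ 2)
        ≤ ENNReal.ofReal (∫ y, ∑ j, jac φ y (k, j) ^ 2) := by
      rw [ofReal_integral_eq_lintegral_ofReal (isum k) (Filter.Eventually.of_forall fun y =>
        Finset.sum_nonneg fun j _ => sq_nonneg _)]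
      refine lintegral_mono fun y => ENNReal.ofReal_le_ofReal ?_
      refine (sq_fderiv_le _).trans (le_of_eq (Finset.sum_congr rfl fun j _ => ?_))
      rw [← dU_jac hC1]
      rfl
    rw [← ofReal_integral_eq_lintegral_ofReal (i4 k) (Filter.Eventually.of_forall fun y => by
        positivity), ← ofReal_integral_eq_lintegral_ofReal (i2 k)
        (Filter.Eventually.of_forall fun y => by positivity)] at key
    have a2 : 0 ≤ ∫ y, φ y k ^ 2 := integral_nonneg fun y => sq_nonneg _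
    have a3 : 0 ≤ ∫ y, ∑ j, jac φ y (k, j) ^ 2 := integral_nonneg fun y =>
      Finset.sum_nonneg fun j _ => sq_nonneg _
    have a4 : 0 ≤ K4 * L ^ 2 / R ^ 2 := by positivity
    have a5 : 0 ≤ K4 * L ^ 2 := by positivity
    have a6 := key.trans (add_le_add le_rfl (mul_le_mul le_rfl a1 zero_le zero_le))
    rw [← ENNReal.ofReal_mul a4, ← ENNReal.ofReal_mul a5, ← ENNReal.ofReal_add
      (mul_nonneg a4 a2) (mul_nonneg a5 a3)] at a6
    exact (ENNReal.ofReal_le_ofReal_iff (by positivity)).1 a6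
  have hT : ‖tensL q.1‖ ^ 2 = ∫ y, (‖φ y‖ ^ 2) ^ 2 := by
    rw [← real_inner_self_eq_norm_sq, L2.inner_def]
    refine Eq.trans ?_ (setIntegral_eq_integral_of_forall_compl_eq_zero (s := Ω) fun x hx => ?_)
    · refine integral_congr_ae ?_
      filter_upwards [tensL_coe hΩ hqW, h2] with x a b
      rw [a, b, real_inner_self_eq_norm_sq, norm_tens]
    · have : φ x = 0 := image_eq_zero_of_notMem_tsupport fun hc => hx (h.supp hc)
      rw [this]
      simp
  have hP : ∫ y, (‖φ y‖ ^ 2) ^ 2 ≤ ∫ y, 3 * ∑ k, φ y k ^ 4 := by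
    refine integral_mono_of_nonneg (Filter.Eventually.of_forall fun y => sq_nonneg _)
      ((integrable_finset_sum _ fun k _ => i4 k).const_mul 3)
      (Filter.Eventually.of_forall fun y => ?_)
    simp only
    rw [norm_sq_E3]
    simp only [Fin.sum_univ_three]
    nlinarith [sq_nonneg (φ y 0 ^ 2 - φ y 1 ^ 2), sq_nonneg (φ y 1 ^ 2 - φ y 2 ^ 2),
      sq_nonneg (φ y 0 ^ 2 - φ y 2 ^ 2)]
  rw [hT]
  refine hP.trans ?_
  rw [integral_const_mul, integral_finset_sum _ fun k _ => i4 k]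
  have hS := Finset.sum_le_sum fun k (_ : k ∈ Finset.univ) => hk k
  rw [Finset.sum_add_distrib, ← Finset.mul_sum, ← Finset.mul_sum,
    ← integral_finset_sum _ fun k _ => i2 k, ← integral_finset_sum _ fun k _ => isum k,
    ← norm_test1 h h2, ← norm_test2 h h3] at hS
  calc 3 * ∑ k, ∫ y, φ y k ^ 4 ≤ 3 * (K4 * L ^ 2 / R ^ 2 * ‖q.1‖ ^ 2 + K4 * L ^ 2 * ‖q.2‖ ^ 2) :=
        mul_le_mul_of_nonneg_left hS (by norm_num)
    _ = _ := by ring

/-- **The fourth power of a field whose vorticity lies in cones.** -/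
theorem four_cone {Ω : Set E3} (hΩ : MeasurableSet Ω) {U : L2V Ω} {G : L2M Ω}
    (hU : (U, G) ∈ graphW Ω) {σ K R : ℝ} (hσ : 0 < σ) (hσ1 : σ ≤ 1) (hK : 0 < K) (hR : 0 < R)
    (hG : CoE Ω G σ K R) :
    ‖tensL U‖ ^ 2 ≤ 3 * K4 * Lq σ (2 * K) R ‖U‖ 0 ^ 2 * (‖U‖ ^ 2 / R ^ 2 + ‖G‖ ^ 2) := by
  have key := graphW_le (Ω := Ω) (fun p => ‖tensL p.1‖ ^ 2
    - 3 * K4 * Lq σ (2 * K) R ‖p.1‖ ‖p.2 - G‖ ^ 2 * (‖p.1‖ ^ 2 / R ^ 2 + ‖p.2‖ ^ 2)) ?_
    (fun q hq => ?_) hU
  · simp only [sub_self, norm_zero] at key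
    linarith
  · refine ((tensL_continuousOn hΩ).norm.pow 2).sub (Continuous.continuousOn ?_)
    unfold Lq
    fun_prop
  · obtain ⟨φ, h1, h2, h3⟩ := hq
    have hv := v3_pos
    have hCf := one_le_Cf
    have hL : 0 < Lq σ (2 * K) R ‖q.1‖ ‖q.2 - G‖ :=
      Lq_pos hσ (by positivity) hR (norm_nonneg _) (norm_nonneg _)
    have := test_four hΩ h1 h2 h3 hL hR
      (fun x s hs hsR => test_mor hΩ h1 h2 h3 hσ hσ1 hK hR hG x hs hsR) fun x => by
        refine (len_ball h1 h2 x hR).trans (mul_le_mul_of_nonneg_right ?_ (by positivity))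
        unfold Lq
        have e1 : 1 ≤ Cf / σ ^ 2 := by
          rw [one_le_div (by positivity)]
          exact (pow_le_one₀ hσ.le hσ1).trans hCf
        have e2 : Real.sqrt (v3 / R) * ‖q.1‖ ≤ 2 * K * R ^ 2 + Real.sqrt (v3 / R) * ‖q.1‖
            + Real.sqrt R * (3 * ‖q.2 - G‖) := by
          have : 0 ≤ 2 * K * R ^ 2 + Real.sqrt R * (3 * ‖q.2 - G‖) := by positivity
          linarith
        exact e2.trans (le_mul_of_one_le_left (by positivity) e1)
    linarith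

/-- The square of the size. -/
theorem Lq_sq {σ K R a M : ℝ} (hσ : 0 < σ) (hK : 0 < K) (hR : 0 < R) (ha : 0 ≤ a) (haM : a ≤ M) :
    Lq σ (2 * K) R a 0 ^ 2 ≤ (Cf / σ ^ 2) ^ 2 * ((8 + 2 * v3 * M ^ 2)
      * (1 / R + K ^ 2 * R ^ 4)) := by
  have hv := v3_pos
  have hCf := Cf_pos
  unfold Lq
  rw [mul_pow]
  refine mul_le_mul_of_nonneg_left ?_ (by positivity)
  have e0 : Real.sqrt (v3 / R) ^ 2 = v3 / R := Real.sq_sqrt (by positivity)
  have e1 : (2 * K * R ^ 2 + Real.sqrt (v3 / R) * a + Real.sqrt R * (3 * 0)) ^ 2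
      ≤ 8 * (K ^ 2 * R ^ 4) + 2 * (v3 / R * a ^ 2) := by
    have : 0 ≤ (2 * K * R ^ 2 - Real.sqrt (v3 / R) * a) ^ 2 := sq_nonneg _
    have e3 : (Real.sqrt (v3 / R) * a) ^ 2 = v3 / R * a ^ 2 := by rw [mul_pow, e0]
    nlinarith
  have e2 : a ^ 2 ≤ M ^ 2 := pow_le_pow_left₀ ha haM 2
  have e3 : v3 / R * a ^ 2 ≤ v3 * M ^ 2 * (1 / R) := by
    rw [show v3 * M ^ 2 * (1 / R) = v3 / R * M ^ 2 by ring]
    exact mul_le_mul_of_nonneg_left e2 (by positivity)
  have e4 : 0 ≤ 8 * (1 / R) := by positivity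
  have e5 : 0 ≤ 2 * v3 * M ^ 2 * (K ^ 2 * R ^ 4) := by positivity
  calc _ ≤ _ := e1
    _ ≤ 8 * (K ^ 2 * R ^ 4) + 2 * (v3 * M ^ 2 * (1 / R)) := by linarith
    _ ≤ (8 + 2 * v3 * M ^ 2) * (1 / R + K ^ 2 * R ^ 4) := by nlinarith

end Pool.Agent.R211.CW
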