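import Pool.Agent.R211.CE.Flux

/-!
The Morrey bound of the curl of a field whose direction lies in a cone up to a square integrable
error.
-/

open MeasureTheory Set Metric Filter Topology
open scoped ContDiff RealInnerProductSpace ENNReal
open Pool.Agent.R210 Pool.Agent.R211.CD Pool.Agent.R211.CE

namespace Pool.Agent.R211.CW

section

variable {ρ : ℝ} (hρ : 0 < ρ)

/-- The components of the radial field. -/
noncomputable def rf (ρ : ℝ) (x : E) (i : Fin 3) (y : E) : ℝ :=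
  (y - x) i * (‖y - x‖ ^ 2 + ρ ^ 2)⁻¹

include hρ in
theorem rf_smooth (x : E) (i : Fin 3) : ContDiff ℝ ∞ (rf ρ x i) := by
  unfold rf
  refine (proj_smooth x i).mul (ContDiff.inv ?_ fun y => (DD_arg hρ _).ne')
  exact ((contDiff_norm_sq ℝ).comp (contDiff_id.sub contDiff_const)).add contDiff_const

include hρ in
theorem rf_fderiv (x : E) (i : Fin 3) (y : E) : fderiv ℝ (rf ρ x i) y (ei i)
    = (‖y - x‖ ^ 2 + ρ ^ 2)⁻¹ - 2 * (y - x) i ^ 2 * ((‖y - x‖ ^ 2 + ρ ^ 2)⁻¹) ^ 2 := by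
  have h0 := (DD_arg hρ (y - x)).ne'
  have h2 : HasFDerivAt (fun y : E => ‖y - x‖ ^ 2 + ρ ^ 2) (2 • (innerSL ℝ (y - x))) y := by
    have := (hasStrictFDerivAt_norm_sq (y - x)).hasFDerivAt
    exact (this.comp y ((hasFDerivAt_id y).sub_const x)).add_const _
  have h3 := (hasDerivAt_inv h0).comp_hasFDerivAt y h2
  have h4 := (proj_fderiv x i y).mul h3
  have h5 : HasFDerivAt (rf ρ x i) _ y := h4
  rw [h5.fderiv]
  simp only [ContinuousLinearMap.add_apply, ContinuousLinearMap.smul_apply, smul_eq_mul,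
    innerSL_apply_apply, inner_ei, proj_ap, ei_apply, if_true, nsmul_eq_mul, Nat.cast_ofNat,
    Function.comp_apply]
  field_simp
  ring

include hρ in
/-- The square of the weight. -/
theorem int_As2 (b : ℝ) {R : ℝ} (hR : 0 < R) (x : E) (e : E) :
    ∫ y in ball x R, As b R ρ x e y ^ 2 ≤ 2 * HB * v3 * R := by
  have hB := one_le_HB
  have hv := v3_pos
  set D2 : E → ℝ := fun y => ‖y - x‖ ^ 2 + ρ ^ 2 with hD2
  have hD2p : ∀ y, 0 < D2 y := fun y => DD_arg hρ (y - x)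
  have hD2c : Continuous D2 := by
    have hz : Continuous fun y : E => y - x := continuous_id.sub continuous_const
    exact (hz.norm.pow 2).add continuous_const
  have hDi : Continuous fun y => (D2 y)⁻¹ := hD2c.inv₀ fun y => (hD2p y).ne'
  set ψ : E → ℝ := fun y => ze R (y - x) with hψ
  have hψs : ContDiff ℝ ∞ ψ := (ze_smooth R).comp (contDiff_id.sub contDiff_const)
  have hψc : HasCompactSupport ψ := by
    refine HasCompactSupport.of_support_subset_isCompact (isCompact_closedBall x R) ?_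
    intro y hy
    by_contra hc
    exact hy (ze_sub_zero hR fun h => hc (ball_subset_closedBall h))
  have hψ0 : ∀ y, 0 ≤ ψ y := fun y => ze_nonneg _ _
  -- integration by parts
  have e1 : ∀ i, ∫ y, rf ρ x i y * fderiv ℝ ψ y (ei i)
      = -∫ y, fderiv ℝ (rf ρ x i) y (ei i) * ψ y := fun i =>
    int_fderiv_test ((rf_smooth hρ x i).of_le (by norm_cast)) hψs hψc (ei i)
  have hψf : ∀ y v, fderiv ℝ ψ y v = Hh R x y * ⟪y - x, v⟫ := by
    intro y v
    rw [(ze_fderiv R x y).fderiv]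
    simp only [ContinuousLinearMap.smul_apply, smul_eq_mul, innerSL_apply_apply]
    rfl
  have j1 : ∀ i, Integrable fun y => rf ρ x i y * fderiv ℝ ψ y (ei i) := by
    intro i
    have h1 : Continuous fun y => fderiv ℝ ψ y (ei i) :=
      (hψs.continuous_fderiv (by norm_num)).clm_apply continuous_const
    have h3 : HasCompactSupport fun y => fderiv ℝ ψ y (ei i) :=
      (hψc.fderiv (𝕜 := ℝ)).comp_left (g := fun L : E →L[ℝ] ℝ => L (ei i)) (by simp)
    exact ((rf_smooth hρ x i).continuous.mul h1).integrable_of_hasCompactSupport h3.mul_left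
  have j2 : ∀ i, Integrable fun y => fderiv ℝ (rf ρ x i) y (ei i) * ψ y := by
    intro i
    have h1 : Continuous fun y => fderiv ℝ (rf ρ x i) y (ei i) :=
      ((rf_smooth hρ x i).continuous_fderiv (by norm_num)).clm_apply continuous_const
    exact (h1.mul hψs.continuous).integrable_of_hasCompactSupport hψc.mul_left
  have hn : ∀ y, ‖y - x‖ ^ 2 = ∑ i, (y - x) i ^ 2 := by
    intro y
    rw [EuclideanSpace.norm_sq_eq]
    exact Finset.sum_congr rfl fun i _ => by rw [Real.norm_eq_abs, sq_abs]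
  have e2 : ∫ y, ∑ i, rf ρ x i y * fderiv ℝ ψ y (ei i)
      = -∫ y, ∑ i, fderiv ℝ (rf ρ x i) y (ei i) * ψ y := by
    rw [integral_finsetSum _ fun i _ => j1 i, integral_finsetSum _ fun i _ => j2 i,
      ← Finset.sum_neg_distrib]
    exact Finset.sum_congr rfl fun i _ => e1 i
  have e3 : ∀ y, ∑ i, rf ρ x i y * fderiv ℝ ψ y (ei i) = Hh R x y * (‖y - x‖ ^ 2 * (D2 y)⁻¹) := by
    intro y
    rw [hn y, Finset.sum_mul, Finset.mul_sum]
    refine Finset.sum_congr rfl fun i _ => ?_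
    rw [hψf, inner_ei]
    unfold rf
    ring
  have e4 : ∀ y, (D2 y)⁻¹ * ψ y ≤ ∑ i, fderiv ℝ (rf ρ x i) y (ei i) * ψ y := by
    intro y
    rw [← Finset.sum_mul]
    refine mul_le_mul_of_nonneg_right ?_ (hψ0 y)
    simp_rw [rf_fderiv hρ]
    rw [Finset.sum_sub_distrib, ← Finset.sum_mul, ← Finset.mul_sum, ← hn y]
    simp only [Finset.sum_const, Finset.card_univ, Fintype.card_fin, nsmul_eq_mul]
    have h1 : ‖y - x‖ ^ 2 * (D2 y)⁻¹ ≤ 1 := by
      rw [← div_eq_mul_inv, div_le_one (hD2p y)]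
      have := sq_nonneg ρ
      simp only [hD2]
      linarith
    have h2 : 0 < (D2 y)⁻¹ := inv_pos.2 (hD2p y)
    have h3 : 2 * ‖y - x‖ ^ 2 * (D2 y)⁻¹ ^ 2 ≤ 2 * (D2 y)⁻¹ := by
      calc 2 * ‖y - x‖ ^ 2 * (D2 y)⁻¹ ^ 2 = 2 * (‖y - x‖ ^ 2 * (D2 y)⁻¹) * (D2 y)⁻¹ := by ring
        _ ≤ 2 * 1 * (D2 y)⁻¹ := by
            refine mul_le_mul_of_nonneg_right ?_ h2.le
            linarith
        _ = _ := by ring
    have e5 : (‖y - x‖ ^ 2 + ρ ^ 2)⁻¹ = (D2 y)⁻¹ := rfl
    rw [e5]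
    push_cast
    linarith
  have hz1 : ∀ y, y ∉ ball x R → (D2 y)⁻¹ * ψ y = 0 := fun y hy => by
    simp only [hψ]
    rw [ze_sub_zero hR hy, mul_zero]
  have j3 : Integrable fun y => (D2 y)⁻¹ * ψ y :=
    (hDi.mul hψs.continuous).integrable_of_hasCompactSupport hψc.mul_left
  have h5 : ∫ y, (D2 y)⁻¹ * ψ y ≤ 2 * HB * v3 * R := by
    have h6 : ∫ y, (D2 y)⁻¹ * ψ y ≤ ∫ y, ∑ i, fderiv ℝ (rf ρ x i) y (ei i) * ψ y :=
      integral_mono j3 (integrable_finsetSum _ fun i _ => j2 i) e4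
    have h7 : ∫ y, ∑ i, fderiv ℝ (rf ρ x i) y (ei i) * ψ y
        = -∫ y, Hh R x y * (‖y - x‖ ^ 2 * (D2 y)⁻¹) := by
      simp_rw [← e3]
      linarith
    rw [h7] at h6
    refine h6.trans ((neg_le_abs _).trans ?_)
    have hz2 : ∀ y, y ∉ ball x R → Hh R x y * (‖y - x‖ ^ 2 * (D2 y)⁻¹) = 0 := fun y hy => by
      rw [Hh_zero hR hy, zero_mul]
    rw [← setIntegral_eq_integral_of_forall_compl_eq_zero hz2, ← Real.norm_eq_abs]
    have hvol : ∫ _ in ball x R, (2 * HB / R ^ 2 : ℝ) = 2 * HB * v3 * R := by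
      rw [setIntegral_const, smul_eq_mul, Measure.real, vol_ball x hR.le]
      field_simp
    rw [← hvol]
    refine norm_integral_le_of_norm_le (integrableOn_const (measure_ball_lt_top).ne)
      (Filter.Eventually.of_forall fun y => ?_)
    rw [Real.norm_eq_abs, abs_mul]
    have h1 : |‖y - x‖ ^ 2 * (D2 y)⁻¹| ≤ 1 := by
      have h2 : 0 < (D2 y)⁻¹ := inv_pos.2 (hD2p y)
      rw [abs_of_nonneg (by positivity), ← div_eq_mul_inv, div_le_one (hD2p y)]
      have := sq_nonneg ρ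
      simp only [hD2]
      linarith
    calc _ ≤ 2 * HB / R ^ 2 * 1 := mul_le_mul (Hh_le hR x y) h1 (abs_nonneg _) (by positivity)
      _ = _ := mul_one _
  rw [← setIntegral_eq_integral_of_forall_compl_eq_zero hz1] at h5
  refine le_trans ?_ h5
  refine setIntegral_mono (intOn_ball ((As_cont hρ b R x e).pow 2) x R)
    (intOn_ball (hDi.mul hψs.continuous) x R) fun y => ?_
  have hD := DD_pos hρ (y - x)
  have hDs : D2 y = DD ρ (y - x) ^ 2 := (DD_sq hρ (y - x)).symm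
  show As b R ρ x e y ^ 2 ≤ (D2 y)⁻¹ * ψ y
  rw [hDs]
  unfold As
  have a1 := ze_nonneg R (y - x)
  have a2 := ze_le_one R (y - x)
  have a3 := hh_nonneg ((b * qq ρ e (y - x)) ^ 2)
  have a4 := hh_le_one ((b * qq ρ e (y - x)) ^ 2)
  have e6 : (ze R (y - x) * (hh ((b * qq ρ e (y - x)) ^ 2) / DD ρ (y - x))) ^ 2
      = (DD ρ (y - x) ^ 2)⁻¹ * (ze R (y - x) * (ze R (y - x) * hh ((b * qq ρ e (y - x)) ^ 2) ^ 2)) := by
    field_simp
  rw [e6]
  refine mul_le_mul_of_nonneg_left ?_ (by positivity)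
  refine mul_le_of_le_one_right a1 ?_
  have a5 : hh ((b * qq ρ e (y - x)) ^ 2) ^ 2 ≤ 1 := pow_le_one₀ a3 a4
  exact mul_le_one₀ a2 (by positivity) a5

end

/-- The final computation. -/
theorem flux_alg2 {X A G J B v h r ρ κ σ R N M : ℝ} (hR : 0 < R) (hr : 0 < r) (hκ : 0 ≤ κ)
    (hB : 0 ≤ B) (hv : 0 < v) (hh0 : 0 < h) (hN : 0 ≤ N) (hσ : 0 < σ)
    (h2 : A ≤ 4 * B * v * R ^ 2) (h3 : G + (σ / 2 * X - κ * A) ≤ 0)
    (hG : |G| ≤ 24 * B / R ^ 2 * (N + (1 + v) * M * R ^ 2))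
    (h4 : h ^ 2 / (2 * ρ) * J ≤ X) (hρ : ρ = 4 * r / σ) :
    J ≤ 384 * B * (1 + v) / h ^ 2 / σ ^ 2 * r * (κ * R ^ 2 + (N + M * R ^ 2) / R ^ 2) := by
  have hρ0 : 0 < ρ := by rw [hρ]; positivity
  have g1 := (abs_le.1 hG).1
  have h5 : σ / 2 * X ≤ 24 * (B * (1 + v) * (κ * R ^ 2 + (N + M * R ^ 2) / R ^ 2)) := by
    have a1 : κ * A ≤ κ * (4 * B * v * R ^ 2) := mul_le_mul_of_nonneg_left h2 hκ
    have e1 : κ * (4 * B * v * R ^ 2) = 4 * (B * v * (κ * R ^ 2)) := by ring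
    have e2 : 24 * B / R ^ 2 * (N + (1 + v) * M * R ^ 2)
        = 24 * (B * (N / R ^ 2)) + 24 * (B * M) + 24 * (B * v * M) := by
      field_simp
      ring
    have e3 : 24 * (B * (1 + v) * (κ * R ^ 2 + (N + M * R ^ 2) / R ^ 2))
        = 24 * (B * (κ * R ^ 2)) + 24 * (B * v * (κ * R ^ 2)) + 24 * (B * (N / R ^ 2))
          + 24 * (B * v * (N / R ^ 2)) + 24 * (B * M) + 24 * (B * v * M) := by
      field_simp
      ring
    rw [e1] at a1
    rw [e2] at g1
    rw [e3]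
    have p1 : 0 ≤ B * (κ * R ^ 2) := by positivity
    have p2 : 0 ≤ B * v * (κ * R ^ 2) := by positivity
    have p3 : 0 ≤ B * v * (N / R ^ 2) := by positivity
    linarith
  have h6 : J ≤ 2 * ρ / h ^ 2 * X := by
    have e1 : 2 * ρ / h ^ 2 * (h ^ 2 / (2 * ρ) * J) = J := by field_simp
    rw [← e1]
    exact mul_le_mul_of_nonneg_left h4 (by positivity)
  have h7 : X ≤ 2 / σ * (24 * (B * (1 + v) * (κ * R ^ 2 + (N + M * R ^ 2) / R ^ 2))) := by
    have e1 : 2 / σ * (σ / 2 * X) = X := by field_simp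
    rw [← e1]
    exact mul_le_mul_of_nonneg_left h5 (by positivity)
  refine h6.trans ((mul_le_mul_of_nonneg_left h7 (by positivity)).trans (le_of_eq ?_))
  rw [hρ]
  field_simp
  ring

/-- **The Morrey bound with an error.** -/
theorem flux_err {U w : E → E} (hU : ContDiff ℝ 1 U) (hw : ContDiff ℝ 1 w)
    (hdiv : ∀ y, dvE w y = 0) (hwU : ∀ y, w y = cuE U y) {x e : E} {R κ σ : ℝ} (hR : 0 < R)
    (hκ : 0 ≤ κ) (hσ : 0 < σ) (hσ1 : σ ≤ 1) (he : ‖e‖ = 1) {er : E → ℝ} {δ : ℝ} (hδ : 0 ≤ δ)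
    (her : IntegrableOn er (ball x R)) (her2 : IntegrableOn (fun y => er y ^ 2) (ball x R))
    (hδ2 : ∫ y in ball x R, er y ^ 2 ≤ δ ^ 2)
    (hpt : ∀ᵐ y ∂volume.restrict (ball x R), σ * ‖w y‖ - κ - er y ≤ ⟪e, w y⟫) {r : ℝ} (hr : 0 < r)
    (hrR : r ≤ R / 2) :
    ∫ y in ball x r, ‖w y‖ ≤ Cf / σ ^ 2 * r
      * (κ * R ^ 2 + ((∫ y in ball x R, ‖U y‖) + Real.sqrt R * δ * R ^ 2) / R ^ 2) := by
  have hB := one_le_HB
  have hv := v3_pos
  have hh0 : 0 < hh (1 / 4) := hh_pos (by norm_num)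
  set ρ : ℝ := 4 * r / σ with hρd
  have hρ : 0 < ρ := by positivity
  have hσρ : σ * ρ = 4 * r := by rw [hρd]; field_simp
  set b : ℝ := 2 / σ with hb
  set φ := tps b R ρ x e with hφ
  have hφs : ContDiff ℝ ∞ φ := tps_smooth hρ b R x e
  have hφc : HasCompactSupport φ := tps_compact b hR ρ x e
  have hfd0 : ∀ y, y ∉ ball x R → ∀ v, fderiv ℝ φ y v = 0 := by
    intro y hy v
    rw [hφ, tps_fderiv hρ, dZ_zero hR hy, ze_sub_zero hR hy]
    ring
  have hfdc : Continuous fun y => fderiv ℝ φ y := hφs.continuous_fderiv (by norm_num)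
  have h0 : ∫ y in ball x R, fderiv ℝ φ y (w y) = 0 := by
    rw [setIntegral_eq_integral_of_forall_compl_eq_zero fun y hy => hfd0 y hy _]
    exact int_dv_zero hw hdiv hφs hφc
  have hAc := As_cont hρ b R x e
  have hA0 := As_nonneg hρ b R x e
  have hwc := hw.continuous.norm
  have iA : IntegrableOn (As b R ρ x e) (ball x R) := intOn_ball hAc x R
  have iA2 : IntegrableOn (fun y => As b R ρ x e y ^ 2) (ball x R) := intOn_ball (hAc.pow 2) x R
  have iWA : IntegrableOn (fun y => ‖w y‖ * As b R ρ x e y) (ball x R) :=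
    intOn_ball (hwc.mul hAc) x R
  have iw : IntegrableOn (fun y => fderiv ℝ φ y (w y)) (ball x R) :=
    intOn_ball (hfdc.clm_apply hw.continuous) x R
  have hZc : Continuous fun y => dZ R x y (w y) := by
    unfold dZ
    have hz : Continuous fun y : E => y - x := continuous_id.sub continuous_const
    have h1 : Continuous fun y : E => ‖y - x‖ ^ 2 / R ^ 2 := (hz.norm.pow 2).div_const _
    have h2 : Continuous fun y : E => deriv hh (‖y - x‖ ^ 2 / R ^ 2) := dhh_cont.comp h1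
    exact h2.mul ((continuous_const.mul (hz.inner hw.continuous)).div_const _)
  have iG : IntegrableOn (fun y => Gs b ρ x e y * dZ R x y (w y)) (ball x R) :=
    intOn_ball ((Gs_smooth hρ b x e).continuous.mul hZc) x R
  have iE : IntegrableOn (fun y => As b R ρ x e y * er y) (ball x R) := by
    have h1 : ∀ y, As b R ρ x e y ≤ 1 / ρ := by
      intro y
      have hD := DD_pos hρ (y - x)
      unfold As
      have h2 : ρ ≤ DD ρ (y - x) := by
        refine le_of_sq_le_sq ?_ hD.le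
        rw [DD_sq hρ]
        have := sq_nonneg ‖y - x‖
        linarith
      have h3 : hh ((b * qq ρ e (y - x)) ^ 2) / DD ρ (y - x) ≤ 1 / ρ :=
        div_le_div₀ zero_le_one (hh_le_one _) hρ h2
      calc _ ≤ 1 * (1 / ρ) := mul_le_mul (ze_le_one _ _) h3
            (div_nonneg (hh_nonneg _) hD.le) zero_le_one
        _ = _ := one_mul _
    refine Integrable.bdd_mul (c := 1 / ρ) her hAc.aestronglyMeasurable
      (Filter.Eventually.of_forall fun y => ?_)
    rw [Real.norm_eq_abs, abs_of_nonneg (hA0 y)]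
    exact h1 y
  have j1 : IntegrableOn (fun y => σ / 2 * (‖w y‖ * As b R ρ x e y)) (ball x R) :=
    iWA.const_mul _
  have j2 : IntegrableOn (fun y => κ * As b R ρ x e y) (ball x R) := iA.const_mul _
  have j3 : IntegrableOn (fun y => σ / 2 * (‖w y‖ * As b R ρ x e y) - κ * As b R ρ x e y)
    (ball x R) := j1.sub j2
  have j4 : IntegrableOn (fun y => Gs b ρ x e y * dZ R x y (w y)
      + (σ / 2 * (‖w y‖ * As b R ρ x e y) - κ * As b R ρ x e y)) (ball x R) := iG.add j3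
  have h3 : ∫ y in ball x R, (Gs b ρ x e y * dZ R x y (w y)
      + (σ / 2 * (‖w y‖ * As b R ρ x e y) - κ * As b R ρ x e y) - As b R ρ x e y * er y)
      ≤ ∫ y in ball x R, fderiv ℝ φ y (w y) := by
    refine integral_mono_ae (j4.sub iE) iw ?_
    filter_upwards [hpt] with y hy
    have h4 := tps_ge hρ hσ hb R x (y := y) (w := w y) (e := e) (κ := κ + er y) (by linarith)
    rw [← hφ] at h4
    refine le_trans (le_of_eq ?_) h4
    ring
  rw [integral_sub j4 iE, integral_add iG j3, integral_sub j1 j2, integral_const_mul,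
    integral_const_mul, h0] at h3
  have hG : |∫ y in ball x R, Gs b ρ x e y * dZ R x y (w y)|
      ≤ 24 * HB / R ^ 2 * ∫ y in ball x R, ‖U y‖ := by
    have := int_cut hρ b hR x he hU
    simp_rw [← hwU] at this
    exact this
  have h2 := int_As hρ hσ hσ1 hb hR x he
  have h4 : hh (1 / 4) ^ 2 / (2 * ρ) * ∫ y in ball x r, ‖w y‖
      ≤ ∫ y in ball x R, ‖w y‖ * As b R ρ x e y := by
    have hsub : ball x r ⊆ ball x R := ball_subset_ball (by linarith)
    have h5 : ∫ y in ball x r, ‖w y‖ * As b R ρ x e y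
        ≤ ∫ y in ball x R, ‖w y‖ * As b R ρ x e y :=
      setIntegral_mono_set iWA (Filter.Eventually.of_forall fun y =>
        mul_nonneg (norm_nonneg _) (hA0 y)) hsub.eventuallyLE
    refine le_trans ?_ h5
    rw [← integral_const_mul]
    have iW : IntegrableOn (fun y => ‖w y‖) (ball x r) := intOn_ball hwc x r
    refine setIntegral_mono_on (iW.const_mul _) (iWA.mono_set hsub)
      measurableSet_ball fun y hy => ?_
    rw [mem_ball, dist_eq_norm] at hy
    have h6 := As_ge hρ hσ hσ1 hb hR (by rw [hσρ]; linarith) x he (y := y) (by rw [hσρ]; linarith)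
    rw [mul_comm]
    exact mul_le_mul_of_nonneg_left h6 (norm_nonneg _)
  -- the error
  have hE : |∫ y in ball x R, As b R ρ x e y * er y| ≤ 2 * HB * (1 + v3) * (Real.sqrt R * δ) := by
    have h5 := H459R3.NS.integral_mul_sq_le (μ := volume.restrict (ball x R)) (a := As b R ρ x e) (b := er)
      iA2 her2 iE
    have h6 : (∫ y in ball x R, As b R ρ x e y * er y) ^ 2 ≤ 2 * HB * v3 * R * δ ^ 2 := by
      refine h5.trans (mul_le_mul (int_As2 hρ b hR x e) hδ2 ?_ (by positivity))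
      exact integral_nonneg fun y => sq_nonneg _
    have h7 : 2 * HB * v3 * R * δ ^ 2 ≤ (2 * HB * (1 + v3) * (Real.sqrt R * δ)) ^ 2 := by
      have e1 : (2 * HB * (1 + v3) * (Real.sqrt R * δ)) ^ 2
          = (2 * HB * (1 + v3)) ^ 2 * (Real.sqrt R ^ 2 * δ ^ 2) := by ring
      rw [e1, Real.sq_sqrt hR.le]
      have h8 : 2 * HB * v3 ≤ (2 * HB * (1 + v3)) ^ 2 := by
        have p1 : 0 ≤ HB * v3 := by positivity
        have p2 : HB * v3 ≤ HB * v3 * HB := le_mul_of_one_le_right p1 hB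
        have p3 : 0 ≤ HB * HB * v3 * v3 := by positivity
        nlinarith
      calc 2 * HB * v3 * R * δ ^ 2 = 2 * HB * v3 * (R * δ ^ 2) := by ring
        _ ≤ _ := mul_le_mul_of_nonneg_right h8 (by positivity)
    have h8 : 0 ≤ 2 * HB * (1 + v3) * (Real.sqrt R * δ) := by positivity
    exact abs_le_of_sq_le_sq (h6.trans h7) h8
  set Er := ∫ y in ball x R, As b R ρ x e y * er y with hEr
  set Gi := ∫ y in ball x R, Gs b ρ x e y * dZ R x y (w y) with hGi
  have hG2 : |Gi - Er| ≤ 24 * HB / R ^ 2 * ((∫ y in ball x R, ‖U y‖)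
      + (1 + v3) * (Real.sqrt R * δ) * R ^ 2) := by
    have a1 := abs_le.1 hG
    have a2 := abs_le.1 hE
    have e1 : 24 * HB / R ^ 2 * ((∫ y in ball x R, ‖U y‖) + (1 + v3) * (Real.sqrt R * δ) * R ^ 2)
        = 24 * HB / R ^ 2 * (∫ y in ball x R, ‖U y‖) + 24 * HB * (1 + v3) * (Real.sqrt R * δ) := by
      field_simp
    have p1 : 0 ≤ HB * (1 + v3) * (Real.sqrt R * δ) := by positivity
    rw [e1, abs_le]
    constructor
    · linarith [a1.1, a2.2]
    · linarith [a1.2, a2.1]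
  have h9 : Gi + (σ / 2 * (∫ y in ball x R, ‖w y‖ * As b R ρ x e y)
      - κ * ∫ y in ball x R, As b R ρ x e y) - Er ≤ 0 := h3
  exact flux_alg2 hR hr hκ (by linarith) hv hh0 (integral_nonneg fun y => norm_nonneg _)
    hσ h2 (by linarith : (Gi - Er) + (σ / 2 * (∫ y in ball x R, ‖w y‖
      * As b R ρ x e y) - κ * ∫ y in ball x R, As b R ρ x e y) ≤ 0) hG2 h4 hρd

end Pool.Agent.R211.CW
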