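import Pool.Agent.R211.CE.Flux

/-!
The Hardy-Littlewood maximal inequality for the level sets of a function which is controlled by the
averages of its gradient.
-/

open MeasureTheory Set Metric Filter Topology
open scoped ENNReal
open Pool.Agent.R210

namespace Pool.Agent.R211.CW

theorem vol_ball' (x : E) {r : ℝ} (hr : 0 ≤ r) : volume (ball x r) = ENNReal.ofReal (v3 * r ^ 3) := by
  rw [← vol_ball x hr, ENNReal.ofReal_toReal measure_ball_lt_top.ne]

theorem vol_cball' (x : E) {r : ℝ} (hr : 0 ≤ r) :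
    volume (closedBall x r) = ENNReal.ofReal (v3 * r ^ 3) := by
  rw [Measure.addHaar_closedBall_eq_addHaar_ball volume x r, vol_ball' x hr]

/-- The weak type inequality. -/
theorem weak {g : E → ℝ} (hg : Continuous g) (hg0 : ∀ x, 0 ≤ g x) {lam R : ℝ} (hlam : 0 < lam)
    {S : Set E} (hS : ∀ x ∈ S, ∃ r, 0 < r ∧ r ≤ R ∧ lam * r ^ 3 < ∫ y in ball x r, g y) :
    volume S ≤ ENNReal.ofReal (128 * v3 / lam)
      * ∫⁻ y in {y | lam / (2 * v3) < g y}, ENNReal.ofReal (g y) := by
  have hv := v3_pos
  choose! r hr0 hrR hr using hS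
  set c : ℝ := lam / (2 * v3) with hc
  have hc0 : 0 < c := by positivity
  set A : Set E := {y | c < g y} with hA
  have hAm : MeasurableSet A := (isOpen_lt continuous_const hg).measurableSet
  set F : E → ℝ≥0∞ := A.indicator fun y => ENNReal.ofReal (g y) with hF
  have hFm : Measurable F := (hg.measurable.ennreal_ofReal).indicator hAm
  -- the local bound
  have hloc : ∀ x ∈ S, ENNReal.ofReal (lam * r x ^ 3 / 2) ≤ ∫⁻ y in ball x (r x), F y := by
    intro x hx
    have h0 := hr0 x hx
    have h1 : ENNReal.ofReal (lam * r x ^ 3) ≤ ∫⁻ y in ball x (r x), ENNReal.ofReal (g y) := by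
      rw [← ofReal_integral_eq_lintegral_ofReal (intOn_ball hg x (r x))
        (Filter.Eventually.of_forall hg0)]
      exact ENNReal.ofReal_le_ofReal (hr x hx).le
    have h2 : ∫⁻ y in ball x (r x), ENNReal.ofReal (g y)
        ≤ ∫⁻ y in ball x (r x), (ENNReal.ofReal c + F y) := by
      refine lintegral_mono fun y => ?_
      by_cases hy : y ∈ A
      · simp only [hF, indicator_of_mem hy]
        exact le_add_self
      · refine le_trans (ENNReal.ofReal_le_ofReal (not_lt.1 hy)) ?_
        exact le_self_add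
    rw [lintegral_add_left measurable_const, setLIntegral_const, vol_ball' x h0.le,
      ← ENNReal.ofReal_mul hc0.le] at h2
    have e1 : c * (v3 * r x ^ 3) = lam * r x ^ 3 / 2 := by
      rw [hc]; field_simp
    rw [e1] at h2
    have h3 := h1.trans h2
    have e2 : ENNReal.ofReal (lam * r x ^ 3)
        = ENNReal.ofReal (lam * r x ^ 3 / 2) + ENNReal.ofReal (lam * r x ^ 3 / 2) := by
      rw [← ENNReal.ofReal_add (by positivity) (by positivity)]
      congr 1
      ring
    rw [e2] at h3
    exact (ENNReal.add_le_add_iff_left ENNReal.ofReal_ne_top).1 h3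
  obtain ⟨u, huS, hdis, hcov⟩ := Vitali.exists_disjoint_subfamily_covering_enlargement_closedBall
    S (fun x : E => x) r R hrR 4 (by norm_num)
  have huc : u.Countable := by
    refine hdis.countable_of_nonempty_interior fun x hx => ?_
    refine ⟨x, ?_⟩
    rw [interior_closedBall _ (hr0 x (huS hx)).ne']
    exact mem_ball_self (hr0 x (huS hx))
  have hsub : S ⊆ ⋃ b ∈ u, closedBall b (4 * r b) := by
    intro x hx
    obtain ⟨b, hb, hxb⟩ := hcov x hx
    exact mem_biUnion hb (hxb (mem_closedBall_self (hr0 x hx).le))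
  have hdis2 : u.PairwiseDisjoint fun a => ball a (r a) := fun a ha b hb hab =>
    (hdis ha hb hab).mono ball_subset_closedBall ball_subset_closedBall
  calc volume S ≤ volume (⋃ b ∈ u, closedBall b (4 * r b)) := measure_mono hsub
    _ ≤ ∑' b : u, volume (closedBall (b : E) (4 * r b)) := measure_biUnion_le volume huc _
    _ ≤ ∑' b : u, ENNReal.ofReal (128 * v3 / lam) * ∫⁻ y in ball (b : E) (r b), F y := by
        refine ENNReal.tsum_le_tsum fun b => ?_
        have hb := huS b.2
        have h0 := hr0 b hb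
        rw [vol_cball' _ (by positivity)]
        have e1 : v3 * (4 * r b) ^ 3 = 128 * v3 / lam * (lam * r b ^ 3 / 2) := by
          field_simp
          ring
        rw [e1, ENNReal.ofReal_mul (by positivity)]
        gcongr
        exact hloc b hb
    _ = ENNReal.ofReal (128 * v3 / lam) * ∑' b : u, ∫⁻ y in ball (b : E) (r b), F y :=
        ENNReal.tsum_mul_left
    _ = ENNReal.ofReal (128 * v3 / lam) * ∫⁻ y in ⋃ b ∈ u, ball b (r b), F y := by
        rw [lintegral_biUnion huc (fun b _ => measurableSet_ball) hdis2]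
    _ ≤ ENNReal.ofReal (128 * v3 / lam) * ∫⁻ y, F y :=
        mul_le_mul' le_rfl (setLIntegral_le_lintegral _ _)
    _ = _ := by
        rw [hF, lintegral_indicator hAm]

/-- The fourth power of a function whose level sets are controlled by averages of `g`. -/
theorem lev4 {h g : E → ℝ} (hh : Continuous h) (hh0 : ∀ x, 0 ≤ h x) (hg : Continuous g)
    (hg0 : ∀ x, 0 ≤ g x) {κ R s0 : ℝ} (hκ : 0 < κ) (hs0 : 0 ≤ s0)
    (hS : ∀ x s, 0 < s → s0 ≤ s → s < h x →
      ∃ r, 0 < r ∧ r ≤ R ∧ κ * s ^ 2 * r ^ 3 < ∫ y in ball x r, g y) :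
    ∫⁻ x, ENNReal.ofReal (h x ^ 4)
      ≤ ENNReal.ofReal (2 * s0 ^ 2) * (∫⁻ x, ENNReal.ofReal (h x ^ 2))
      + ENNReal.ofReal (512 * v3 ^ 2 / κ ^ 2) * ∫⁻ x, ENNReal.ofReal (g x ^ 2) := by
  have hv := v3_pos
  set ν : Measure E := volume.withDensity fun y => ENNReal.ofReal (g y) with hν
  set f2 : E → ℝ := fun y => Real.sqrt (2 * v3 / κ * g y) with hf2
  have hf2c : Continuous f2 := Real.continuous_sqrt.comp (continuous_const.mul hg)
  have hgm : Measurable fun y => ENNReal.ofReal (g y) := hg.measurable.ennreal_ofReal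
  have k4 := lintegral_rpow_eq_lintegral_meas_lt_mul (volume : Measure E)
    (Filter.Eventually.of_forall hh0) hh.aemeasurable (p := 4) (by norm_num)
  have k2 := lintegral_rpow_eq_lintegral_meas_lt_mul (volume : Measure E)
    (Filter.Eventually.of_forall hh0) hh.aemeasurable (p := 2) (by norm_num)
  have kg := lintegral_rpow_eq_lintegral_meas_lt_mul ν (f := f2)
    (Filter.Eventually.of_forall fun y => Real.sqrt_nonneg _) hf2c.aemeasurable (p := 2)
    (by norm_num)
  have key : ∀ t ∈ Ioi (0 : ℝ), volume {a | t < h a} * ENNReal.ofReal (t ^ ((4 : ℝ) - 1))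
      ≤ ENNReal.ofReal (s0 ^ 2) * (volume {a | t < h a} * ENNReal.ofReal (t ^ ((2 : ℝ) - 1)))
        + ENNReal.ofReal (128 * v3 / κ)
          * (ν {a | t < f2 a} * ENNReal.ofReal (t ^ ((2 : ℝ) - 1))) := by
    intro t ht
    have ht0 : 0 < t := ht
    have e3 : t ^ ((4 : ℝ) - 1) = t ^ 3 := by
      rw [show (4 : ℝ) - 1 = (3 : ℕ) by norm_num, Real.rpow_natCast]
    have e1 : t ^ ((2 : ℝ) - 1) = t := by
      rw [show (2 : ℝ) - 1 = 1 by norm_num, Real.rpow_one]
    rw [e3, e1]
    rcases lt_or_ge t s0 with h1 | h1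
    · refine le_trans ?_ le_self_add
      have h2 : t ^ 3 ≤ s0 ^ 2 * t := by
        have := pow_le_pow_left₀ ht0.le h1.le 2
        calc t ^ 3 = t ^ 2 * t := by ring
          _ ≤ _ := mul_le_mul_of_nonneg_right this ht0.le
      calc volume {a | t < h a} * ENNReal.ofReal (t ^ 3)
          ≤ volume {a | t < h a} * ENNReal.ofReal (s0 ^ 2 * t) := by gcongr
        _ = _ := by
            rw [ENNReal.ofReal_mul (by positivity)]
            ring
    · refine le_trans ?_ le_add_self
      have h2 := weak hg hg0 (lam := κ * t ^ 2) (R := R) (by positivity)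
        (S := {a | t < h a}) fun x hx => hS x t ht0 h1 hx
      have h3 : {y | κ * t ^ 2 / (2 * v3) < g y} = {a | t < f2 a} := by
        ext y
        rw [mem_ofPred_eq, mem_ofPred_eq, hf2, Real.lt_sqrt ht0.le, div_lt_iff₀ (by positivity)]
        constructor
        · intro h5
          have e5 : 2 * v3 / κ * g y = g y * (2 * v3) / κ := by ring
          rw [e5, lt_div_iff₀ hκ]
          linarith
        · intro h5
          have e5 : 2 * v3 / κ * g y = g y * (2 * v3) / κ := by ring
          rw [e5, lt_div_iff₀ hκ] at h5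
          linarith
      have hm : MeasurableSet {a | t < f2 a} :=
        (isOpen_lt continuous_const hf2c).measurableSet
      rw [h3] at h2
      have h4 : ν {a | t < f2 a} = ∫⁻ y in {a | t < f2 a}, ENNReal.ofReal (g y) :=
        withDensity_apply _ hm
      rw [← h4] at h2
      calc volume {a | t < h a} * ENNReal.ofReal (t ^ 3)
          ≤ ENNReal.ofReal (128 * v3 / (κ * t ^ 2)) * ν {a | t < f2 a} * ENNReal.ofReal (t ^ 3) := by
            gcongr
        _ = ν {a | t < f2 a} * (ENNReal.ofReal (128 * v3 / (κ * t ^ 2)) * ENNReal.ofReal (t ^ 3)) := by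
            ring
        _ = ν {a | t < f2 a} * (ENNReal.ofReal (128 * v3 / κ) * ENNReal.ofReal t) := by
            rw [← ENNReal.ofReal_mul (by positivity), ← ENNReal.ofReal_mul (by positivity)]
            congr 2
            field_simp
        _ = _ := by ring
  have e4 : ∀ x, h x ^ (4 : ℝ) = h x ^ 4 := fun x => by
    rw [show (4 : ℝ) = (4 : ℕ) by norm_num, Real.rpow_natCast]
  have e2 : ∀ x, h x ^ (2 : ℝ) = h x ^ 2 := fun x => by
    rw [show (2 : ℝ) = (2 : ℕ) by norm_num, Real.rpow_natCast]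
  have ef : ∀ x, f2 x ^ (2 : ℝ) = 2 * v3 / κ * g x := fun x => by
    rw [show (2 : ℝ) = (2 : ℕ) by norm_num, Real.rpow_natCast, hf2]
    have := hg0 x
    exact Real.sq_sqrt (by positivity)
  simp_rw [e4] at k4
  simp_rw [e2] at k2
  simp_rw [ef] at kg
  have hm1 : Measurable fun t : ℝ => volume {a | t < h a} * ENNReal.ofReal (t ^ ((2 : ℝ) - 1)) := by
    refine Measurable.mul ?_ (by fun_prop)
    have ha : Antitone fun t : ℝ => volume {a | t < h a} := fun s t hst =>
      measure_mono fun a ha => lt_of_le_of_lt hst ha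
    exact ha.measurable
  have hm2 : Measurable fun t : ℝ => ν {a | t < f2 a} * ENNReal.ofReal (t ^ ((2 : ℝ) - 1)) := by
    refine Measurable.mul ?_ (by fun_prop)
    have ha : Antitone fun t : ℝ => ν {a | t < f2 a} := fun s t hst =>
      measure_mono fun a ha => lt_of_le_of_lt hst ha
    exact ha.measurable
  have k5 : ∫⁻ t in Ioi (0 : ℝ), volume {a | t < h a} * ENNReal.ofReal (t ^ ((4 : ℝ) - 1))
      ≤ ENNReal.ofReal (s0 ^ 2) * (∫⁻ t in Ioi (0 : ℝ),
          volume {a | t < h a} * ENNReal.ofReal (t ^ ((2 : ℝ) - 1)))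
        + ENNReal.ofReal (128 * v3 / κ) * ∫⁻ t in Ioi (0 : ℝ),
          ν {a | t < f2 a} * ENNReal.ofReal (t ^ ((2 : ℝ) - 1)) := by
    have hm3 : Measurable fun t : ℝ => ENNReal.ofReal (s0 ^ 2)
        * (volume {a | t < h a} * ENNReal.ofReal (t ^ ((2 : ℝ) - 1)))
        + ENNReal.ofReal (128 * v3 / κ)
          * (ν {a | t < f2 a} * ENNReal.ofReal (t ^ ((2 : ℝ) - 1))) :=
      (hm1.const_mul _).add (hm2.const_mul _)
    refine (setLIntegral_mono hm3 key).trans (le_of_eq ?_)
    rw [lintegral_add_left (hm1.const_mul _), lintegral_const_mul _ hm1, lintegral_const_mul _ hm2]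
  have h22 : ∀ X : ℝ≥0∞, X = ENNReal.ofReal (1 / 2) * (ENNReal.ofReal 2 * X) := fun X => by
    rw [← mul_assoc, ← ENNReal.ofReal_mul (by norm_num)]
    norm_num
  rw [h22 (∫⁻ t in Ioi (0 : ℝ), volume {a | t < h a} * ENNReal.ofReal (t ^ ((2 : ℝ) - 1))), ← k2,
    h22 (∫⁻ t in Ioi (0 : ℝ), ν {a | t < f2 a} * ENNReal.ofReal (t ^ ((2 : ℝ) - 1))), ← kg] at k5
  have k6 : ∫⁻ x, ENNReal.ofReal (2 * v3 / κ * g x) ∂ν
      = ENNReal.ofReal (2 * v3 / κ) * ∫⁻ x, ENNReal.ofReal (g x ^ 2) := by
    rw [hν, lintegral_withDensity_eq_lintegral_mul _ hgm (by fun_prop), ← lintegral_const_mul _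
      (by fun_prop)]
    refine lintegral_congr fun x => ?_
    simp only [Pi.mul_apply]
    rw [ENNReal.ofReal_mul (by positivity), sq, ENNReal.ofReal_mul (hg0 x)]
    ring
  rw [k6] at k5
  rw [k4]
  refine (mul_le_mul_right k5 _).trans (le_of_eq ?_)
  rw [mul_add]
  congr 1
  · simp only [← mul_assoc]
    rw [← ENNReal.ofReal_mul (by norm_num), ← ENNReal.ofReal_mul (by positivity)]
    congr 2
    ring
  · simp only [← mul_assoc]
    rw [← ENNReal.ofReal_mul (by norm_num), ← ENNReal.ofReal_mul (by positivity),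
      ← ENNReal.ofReal_mul (by positivity)]
    congr 2
    field_simp
    ring

end Pool.Agent.R211.CW
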